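import Pool.Agent.H23.RM.FF

/-!
# Time averages of sums of phases
-/

set_option autoImplicit false

open Set Filter Topology MeasureTheory
open scoped ENNReal NNReal

noncomputable section

namespace Pool.Agent.H23.FF

/-- the mean over the time window `(a, a + T)` -/
def timeMean {E : Type} [NormedAddCommGroup E] [NormedSpace ℝ E] (F : ℝ → E) (a T : ℝ) : E :=
  T⁻¹ • ∫ t in a..(a + T), F t

/-- the law of `(a + T s) x`, `s` uniform in `(0, 1)` -/
def tl {N : ℕ} (x : Fin N → ℝ) (q : ℝ × ℝ) : Measure (Fin N → ℝ) :=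
  (volume.restrict (Ioc (0 : ℝ) 1)).map fun s j => (q.1 + q.2 * s) * x j

instance {N : ℕ} (x : Fin N → ℝ) (q : ℝ × ℝ) : IsProbabilityMeasure (tl x q) := by
  have h1 : IsProbabilityMeasure (volume.restrict (Ioc (0 : ℝ) 1)) := ⟨by simp⟩
  unfold tl
  exact Measure.isProbabilityMeasure_map (by fun_prop)

lemma tl_int {E : Type} [NormedAddCommGroup E] [NormedSpace ℝ E] {N : ℕ} (x : Fin N → ℝ)
    (q : ℝ × ℝ) (hq : 0 < q.2) {f : (Fin N → ℝ) → E} (hf : Continuous f) :
    ∫ y, f y ∂(tl x q) = timeMean (fun t => f fun j => t * x j) q.1 q.2 := by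
  unfold tl timeMean
  rw [integral_map (by fun_prop) hf.aestronglyMeasurable, ← intervalIntegral.integral_of_le
    zero_le_one]
  have h1 := intervalIntegral.integral_comp_add_mul (a := 0) (b := 1)
    (fun t => f fun j => t * x j) hq.ne' q.1
  rw [h1, mul_zero, mul_one, add_zero]

lemma win : ∀ᶠ q : ℝ × ℝ in ⊤ ×ˢ atTop, 0 < q.2 := by
  have h := (eventually_gt_atTop (0 : ℝ)).prod_inr (⊤ : Filter ℝ)
  exact h

/-- the mean of a phase over a long time window is small -/
theorem tl_zero {N : ℕ} {x : Fin N → ℝ} (hx : LinearIndependent ℚ x) (k : Fin N → ℤ) (hk : k ≠ 0) :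
    Tendsto (fun q : ℝ × ℝ => ∫ y, ph (∑ j, (k j : ℝ) * y j) ∂(tl x q)) (⊤ ×ˢ atTop) (𝓝 0) := by
  obtain ⟨α, hα⟩ : ∃ α : ℝ, α = ∑ j, (k j : ℝ) * x j := ⟨_, rfl⟩
  have hα0 : α ≠ 0 := by
    intro h
    refine hk (funext fun j => ?_)
    have h1 := Fintype.linearIndependent_iff.1 hx (fun j => (k j : ℚ)) (by
      rw [← h, hα]
      refine Finset.sum_congr rfl fun j _ => ?_
      rw [Rat.smul_def]
      push_cast
      rfl) j
    exact_mod_cast h1
  have h1 : ∀ q : ℝ × ℝ, 0 < q.2 → ‖∫ y, ph (∑ j, (k j : ℝ) * y j) ∂(tl x q)‖ ≤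
      (Real.pi * |α|)⁻¹ * q.2⁻¹ := by
    intro q hq
    have hfc : Continuous fun y : Fin N → ℝ => ph (∑ j, (k j : ℝ) * y j) :=
      ph_cont.comp (by fun_prop)
    rw [tl_int x q hq hfc]
    unfold timeMean
    have hc : (2 * Real.pi * Complex.I * α : ℂ) ≠ 0 := by
      simp [hα0, Real.pi_ne_zero]
    have h2 : ∀ t : ℝ, ph (∑ j, (k j : ℝ) * (t * x j)) =
        Complex.exp ((2 * Real.pi * Complex.I * α) * t) := by
      intro t
      unfold ph
      congr 1
      have h3 : ∑ j, (k j : ℝ) * (t * x j) = α * t := by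
        rw [hα, Finset.sum_mul]
        exact Finset.sum_congr rfl fun j _ => by ring
      rw [h3]
      push_cast
      ring
    simp only [h2]
    rw [integral_exp_mul_complex hc, norm_smul, norm_div, norm_inv, Real.norm_eq_abs,
      abs_of_pos hq]
    have h3 : ∀ t : ℝ, ‖Complex.exp ((2 * Real.pi * Complex.I * α) * t)‖ = 1 := by
      intro t
      rw [show ((2 * Real.pi * Complex.I * α) * t : ℂ) = ((2 * Real.pi * α * t : ℝ) : ℂ) *
        Complex.I by push_cast; ring]
      exact Complex.norm_exp_ofReal_mul_I _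
    have h4 : ‖Complex.exp ((2 * Real.pi * Complex.I * α) * ((q.1 + q.2 : ℝ) : ℂ)) -
        Complex.exp ((2 * Real.pi * Complex.I * α) * (q.1 : ℂ))‖ ≤ 2 := by
      refine (norm_sub_le _ _).trans ?_
      rw [h3, h3]
      norm_num
    have h5 : ‖(2 * Real.pi * Complex.I * α : ℂ)‖ = 2 * (Real.pi * |α|) := by
      simp only [norm_mul, Complex.norm_I, Complex.norm_real, Real.norm_eq_abs, mul_one,
        abs_of_pos Real.pi_pos, Complex.norm_ofNat]
      ring
    rw [h5]
    have h6 : 0 < Real.pi * |α| := by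
      have := abs_pos.2 hα0
      positivity
    calc q.2⁻¹ * (‖Complex.exp ((2 * Real.pi * Complex.I * α) * ((q.1 + q.2 : ℝ) : ℂ)) -
        Complex.exp ((2 * Real.pi * Complex.I * α) * (q.1 : ℂ))‖ / (2 * (Real.pi * |α|))) ≤
        q.2⁻¹ * (2 / (2 * (Real.pi * |α|))) := by gcongr
      _ = _ := by field_simp
  rw [tendsto_zero_iff_norm_tendsto_zero]
  have h2 : Tendsto (fun q : ℝ × ℝ => (Real.pi * |α|)⁻¹ * q.2⁻¹) (⊤ ×ˢ atTop) (𝓝 0) := by
    have h3 : Tendsto (fun q : ℝ × ℝ => q.2⁻¹) (⊤ ×ˢ atTop) (𝓝 0) :=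
      tendsto_inv_atTop_zero.comp tendsto_snd
    simpa using h3.const_mul (Real.pi * |α|)⁻¹
  refine tendsto_of_tendsto_of_tendsto_of_le_of_le' tendsto_const_nhds h2
    (Eventually.of_forall fun q => norm_nonneg _) ?_
  filter_upwards [win] with q hq
  exact h1 q hq

/-- **the moments in time** -/
theorem time_moments {N : ℕ} {x : Fin N → ℝ} (hx : LinearIndependent ℚ x) (m : ℕ) :
    Tendsto (fun q : ℝ × ℝ => timeMean (fun t => (‖∑ l, ph (t * x l)‖ ^ 2 / N) ^ m) q.1 q.2)
      (⊤ ×ˢ atTop) (𝓝 (pairing N m)) := by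
  have h1 := moments (F := (⊤ : Filter ℝ) ×ˢ (atTop : Filter ℝ)) (ν := tl x)
    (fun q => inferInstance) (fun k hk => tl_zero hx k hk) m
  refine h1.congr' ?_
  filter_upwards [win] with q hq
  have hc : Continuous fun y : Fin N → ℝ => (‖∑ l, ph (y l)‖ ^ 2 / N) ^ m := by
    refine Continuous.pow (Continuous.div_const (Continuous.pow (Continuous.norm ?_) 2) _) m
    exact continuous_finsetSum _ fun l _ => ph_cont.comp (continuous_apply l)
  exact tl_int x q hq hc

/-- **the equidistribution in time** -/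
theorem time_torus {N : ℕ} {x : Fin N → ℝ} (hx : LinearIndependent ℚ x)
    (f : C(UnitAddTorus (Fin N), ℂ)) :
    Tendsto (fun q : ℝ × ℝ => timeMean (fun t => f fun l => (((t * x l : ℝ)) : UnitAddCircle))
      q.1 q.2) (⊤ ×ˢ atTop) (𝓝 (∫ z, f z ∂(um N))) := by
  have h1 := torus (F := (⊤ : Filter ℝ) ×ˢ (atTop : Filter ℝ)) (ν := tl x)
    (fun q => inferInstance) (fun k hk => tl_zero hx k hk) f
  refine h1.congr' ?_
  filter_upwards [win] with q hq
  have hc : Continuous fun y : Fin N → ℝ => f (fun j => (y j : UnitAddCircle)) := by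
    refine f.continuous.comp (continuous_pi fun j => ?_)
    exact (AddCircle.continuous_mk' 1).comp (continuous_apply j)
  exact tl_int x q hq hc

end Pool.Agent.H23.FF
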