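import Pool.Agent.H23.RM.Top

/-!
# The levels depend continuously on the conformal factor
-/

set_option autoImplicit false
set_option linter.unusedSectionVars false

open Set Filter Topology MeasureTheory
open Pool.Agent.Y262.QE Pool.Agent.Y264.QR Pool.Agent.Y319.QR Q101.QG
open Pool.Agent.Q233 Pool.Agent.Q233.GLV

noncomputable section

namespace Pool.Agent.H23.RM

variable {M : Type} [MetricSpace M] [CompactSpace M] [MeasurableSpace M] [BorelSpace M]
  {μ : Measure M} {D : Data M}

variable [Nonempty M] (μ D)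

/-- the eigenvalues, multiplied by the area, are continuous functions of the conformal factor, and
each of them is positive everywhere or zero everywhere -/
theorem lev_cont (hD : D.IsSurf μ) : ∃ g : ℕ → C(M, ℝ) → ℝ, (∀ j, Continuous (g j)) ∧
    (∀ φ (u : ℕ → M → ℝ) (lam : ℕ → ℝ),
      EigBasis (D.conf fun x => Real.exp (φ x)) (wm μ fun x => Real.exp (φ x)) u lam →
      ∀ j, (wm μ fun y => Real.exp (φ y)).real univ * lam j = g j φ) ∧
    ∀ j, (∀ φ, g j φ = 0) ∨ ∀ φ, 0 < g j φ := by
  obtain ⟨hf, -⟩ := tFin M μ D hD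
  have := hf
  have : CompleteSpace (HF D μ) := by
    unfold HF
    exact (Submodule.isClosed_topologicalClosure _).completeSpace_coe
  obtain ⟨i, a, hSf, hi, ha⟩ := tPackF M μ D hD inferInstance
  obtain ⟨b, hB, hF, hpos, hcmp, -⟩ := tFm M μ (HF D μ) i a hSf
  have hbr := fun φ u lam hu => tBr M μ D hD i a b hSf hi ha hB hF φ u lam hu
  have hEv : ∀ φ (u : ℕ → M → ℝ) (lam : ℕ → ℝ),
      EigBasis (D.conf fun x => Real.exp (φ x)) (wm μ fun x => Real.exp (φ x)) u lam →
      ∀ j, lam j = Ev a (b φ) j := by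
    intro φ u lam hu j
    obtain ⟨e', -, he'⟩ := hbr φ u lam hu
    exact (Pool.Agent.Y592.QE.mm _ a (b φ) (hF φ) e' lam he' j).symm
  obtain ⟨hnn, -, -, -, hdich⟩ := tLip M μ (HF D μ) a b hF hcmp
  refine ⟨fun j φ => Tu μ a b (fun _ : Fin 1 => j) φ 0, fun j => ?_, ?_, ?_⟩
  · exact (continuous_apply (0 : Fin 1)).comp (tu_cont hSf hB fun _ : Fin 1 => j)
  · intro φ u lam hu j
    have h3 : (wm μ fun y => Real.exp (φ y)).real univ = ∫ y, Real.exp (φ y) ∂μ := by
      have hm : Measurable fun y => Real.exp (φ y) :=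
        (Real.continuous_exp.comp φ.continuous).measurable
      have h5 : (wm μ fun y => Real.exp (φ y)).real univ =
          ∫ y, (1 : ℝ) ∂(wm μ fun y => Real.exp (φ y)) := by simp
      rw [h5, integral_wm μ _ hm fun x => (Real.exp_pos _).le]
      simp
    unfold Tu
    rw [h3, hEv φ u lam hu j]
  · intro j
    rcases hdich j with h | h
    · left
      intro φ
      show (∫ x, Real.exp (φ x) ∂μ) * Ev a (b φ) j = 0
      rw [h φ, mul_zero]
    · right
      intro φ
      exact mul_pos (hpos φ) (h φ)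

end Pool.Agent.H23.RM
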