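import Pool.Agent.H23.RM.Der

/-!
# Random metrics: there is no relation along sequences in all directions
-/

set_option autoImplicit false
set_option linter.unusedSectionVars false

open Set Filter Topology MeasureTheory
open Pool.Agent.Y262.QE Pool.Agent.Y264.QR Pool.Agent.Y319.QR Q101.QG
open Pool.Agent.Q233.GLV

noncomputable section

namespace Pool.Agent.H23.RM

variable {M : Type} [MetricSpace M] [CompactSpace M] [MeasurableSpace M] [BorelSpace M]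
  {μ : Measure M} [IsFiniteMeasure μ] {H : Type} [NormedAddCommGroup H] [InnerProductSpace ℝ H]
  {i : H →L[ℝ] Lp ℝ 2 μ} {a : H →L[ℝ] H →L[ℝ] ℝ} {b : C(M, ℝ) → H →L[ℝ] H →L[ℝ] ℝ}

/-- the relation holds at points `φ + t y'` with small `t ≠ 0` and `y'` near `y` -/
def Appr (μ : Measure M) (i : H →L[ℝ] Lp ℝ 2 μ) (a : H →L[ℝ] H →L[ℝ] ℝ)
    (b : C(M, ℝ) → H →L[ℝ] H →L[ℝ] ℝ) (J : Finset ℕ) (j₀ : ℕ) (φ g : C(M, ℝ)) : Prop :=
  ∃ (t : ℕ → ℝ) (gs : ℕ → C(M, ℝ)), (∀ m, t m ≠ 0) ∧ Tendsto t atTop (𝓝 0) ∧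
      Tendsto gs atTop (𝓝 g) ∧ ∀ m, Rel μ i a b J j₀ (φ + t m • gs m)

theorem core2 [CompleteSpace H] (hS : Sf μ i a) (hB : IsB μ i b) {φ : C(M, ℝ)} {e : ℕ → H}
    {E : ℕ → ℝ} (hE : Eg a (b φ) e E) {J : Finset ℕ} {j₀ : ℕ} (hJ0 : 0 ∈ J) (hj₀ : j₀ ∉ J)
    (hs : ∀ j ∈ insert j₀ J, j ≠ 0 → Sim a b φ j)
    {B : Type} [AddCommGroup B] [Module ℝ B] [TopologicalSpace B]
    (ι : B →L[ℝ] C(M, ℝ)) (hι : DenseRange ι) {κ : ℕ → B}
    (hκ : ∀ l ∈ J, ∀ j ∈ J, pw μ i φ (ι (κ l)) e j = if l = j then 1 else 0) {γ : ℕ → ℝ}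
    (hγ : ∀ h : C(M, ℝ), pw μ i φ h e j₀ = ∑ j ∈ J, γ j * pw μ i φ h e j)
    (hdep : ∀ y : B, Appr μ i a b J j₀ φ (ι y))
    {Ω : (M → ℝ) → ℝ} {h : ℕ → C(M, ℝ)} {C : ℝ} {w : ℕ → H → H} (hO : Osc μ i a b Ω h C w) :
    E j₀ * Ω (fun x => (i (e j₀) x) ^ 2) =
      ∑ j ∈ J, (if j = 0 then 0 else γ j * (E j * Ω fun x => (i (e j) x) ^ 2)) := by
  obtain ⟨hF, hb, -⟩ := forms μ i a b hS hB
  have hmm : ∀ j, Ev a (b φ) j = E j := fun j =>
    Pool.Agent.Y592.QE.mm H a (b φ) (hF φ) e E hE j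
  obtain ⟨y, hy1, hy2⟩ := dirs hS hB ι hι hκ hO
  have hE0 : ∀ j, 0 ≤ E j := E_nonneg (hF φ) hE
  have hC0 := hO.C0
  -- the form of the direction
  obtain ⟨k, hk⟩ : ∃ k : ℕ → H →L[ℝ] H →L[ℝ] ℝ, k = fun n => kf b (ι (y n) * ex φ) := ⟨_, rfl⟩
  obtain ⟨δ, hδ⟩ : ∃ δ : ℕ → ℝ, δ = fun n => ‖ι (y n) * ex φ - h n‖ := ⟨_, rfl⟩
  have hδ0 : ∀ n, 0 ≤ δ n := fun n => by rw [hδ]; exact norm_nonneg _
  have hδt : Tendsto δ atTop (𝓝 0) := by rw [hδ]; exact hy2
  have hdiff : ∀ n u v, k n u v - kf b (h n) u v = kf b (ι (y n) * ex φ - h n) u v := by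
    intro n u v
    have h1 := kf_lin hB (ι (y n) * ex φ) (h n) 1 (-1) u v
    have h2 : (1 : ℝ) • (ι (y n) * ex φ) + (-1 : ℝ) • h n = ι (y n) * ex φ - h n := by
      rw [one_smul, neg_smul, one_smul, sub_eq_add_neg]
    rw [h2] at h1
    rw [h1, hk]
    ring
  have hdi : ∀ n u v, |k n u v - kf b (h n) u v| ≤ δ n * ‖i u‖ * ‖i v‖ := by
    intro n u v
    rw [hdiff]
    exact kf_bdi hB (hδ0 n) (fun x => by
      rw [hδ]; exact (ι (y n) * ex φ - h n).norm_coe_le_norm x) u v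
  have hdn : ∀ n u v, |k n u v - kf b (h n) u v| ≤ δ n * ‖u‖ * ‖v‖ := by
    intro n u v
    refine (hdi n u v).trans ?_
    exact mul_le_mul (mul_le_mul_of_nonneg_left (i_le hS u) (hδ0 n)) (i_le hS v) (norm_nonneg _)
      (mul_nonneg (hδ0 n) (norm_nonneg _))
  have hbw : ∀ n v ψ, |b φ (w n v) ψ| ≤ ‖ex φ‖ * (C * ((n : ℝ) + 1)⁻¹ * ‖v‖) * ‖ψ‖ := by
    intro n v ψ
    rw [← kf_ex hB]
    refine (kf_bdi hB (norm_nonneg (ex φ)) (fun x => (ex φ).norm_coe_le_norm x) _ _).trans ?_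
    exact mul_le_mul (mul_le_mul_of_nonneg_left (hO.wn n v) (norm_nonneg _)) (i_le hS ψ)
      (norm_nonneg _) (mul_nonneg (norm_nonneg _) ((norm_nonneg _).trans (hO.wn n v)))
  have hinvt : Tendsto (fun n : ℕ => ((n : ℝ) + 1)⁻¹) atTop (𝓝 0) := by
    have := tendsto_one_div_add_atTop_nhds_zero_nat (𝕜 := ℝ)
    simpa [one_div] using this
  have hbwt : ∀ v : H, Tendsto (fun n : ℕ => ‖ex φ‖ * (C * ((n : ℝ) + 1)⁻¹ * ‖v‖)) atTop (𝓝 0) := by
    intro v
    have := ((hinvt.const_mul C).mul_const ‖v‖).const_mul ‖ex φ‖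
    simpa using this
  have hk0 : ∀ n, ∀ j ∈ insert j₀ J, j ≠ 0 → k n (e j) (e j) = 0 := by
    intro n j hj hj0
    have h1 : pw μ i φ (ι (y n)) e j = k n (e j) (e j) := by
      unfold pw
      rw [if_neg hj0, kap_kf hB, hk]
    rw [← h1]
    rcases Finset.mem_insert.1 hj with h | h
    · rw [h, hγ]
      exact Finset.sum_eq_zero fun l hl => by rw [hy1 n l hl, mul_zero]
    · exact hy1 n j h
  -- constants
  have hexC : ∀ j : ℕ, ∃ Cj : ℝ, 0 < Cj ∧ (j ∈ insert j₀ J → j ≠ 0 → ∀ (g : H) (ε : ℝ), 0 ≤ ε →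
      (∀ ψ, |a g ψ - E j * b φ g ψ| ≤ ε * ‖ψ‖) → ‖g‖ ≤ Cj * (ε + |b φ g (e j)|)) := by
    intro j
    by_cases hj : j ∈ insert j₀ J ∧ j ≠ 0
    · obtain ⟨Cj, h1, h2⟩ := inv (hF φ) hE (j := j) (fun l hl => by
        have := hs j hj.1 hj.2 l hl
        rwa [hmm, hmm] at this)
      exact ⟨Cj, h1, fun _ _ => h2⟩
    · exact ⟨1, one_pos, fun h3 h4 => absurd ⟨h3, h4⟩ hj⟩
  choose Cc hCc0 hCc using hexC
  obtain ⟨T, hT⟩ : ∃ T : ℝ, T = (2 * C + 1) * (‖e j₀‖ * (2 * Cc j₀ + 1) +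
    ∑ j ∈ J, |γ j| * (‖e j‖ * (2 * Cc j + 1))) := ⟨_, rfl⟩
  have hT0 : 0 ≤ T := by
    rw [hT]
    have h1 := hCc0 j₀
    have h2 : 0 ≤ ∑ j ∈ J, |γ j| * (‖e j‖ * (2 * Cc j + 1)) :=
      Finset.sum_nonneg fun j _ => by
        have := hCc0 j
        positivity
    positivity
  -- the limit of the values
  have hval : ∀ j ∈ insert j₀ J, j ≠ 0 → Tendsto (fun n => k n (e j) (E j • w n (e j))) atTop
      (𝓝 (E j * Ω fun x => (i (e j) x) ^ 2)) := by
    intro j _ _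
    have h1 : Tendsto (fun n => k n (e j) (w n (e j)) - kf b (h n) (e j) (w n (e j))) atTop
        (𝓝 0) := by
      have h2 : Tendsto (fun n : ℕ => δ n * ‖i (e j)‖ * (C * ((n : ℝ) + 1)⁻¹ * ‖e j‖)) atTop
          (𝓝 0) := by
        have := (hδt.mul_const ‖i (e j)‖).mul ((hinvt.const_mul C).mul_const ‖e j‖)
        simpa using this
      refine squeeze_zero_norm (fun n => ?_) h2
      rw [Real.norm_eq_abs]
      refine (hdi n _ _).trans ?_
      exact mul_le_mul_of_nonneg_left (hO.wn n (e j)) (mul_nonneg (hδ0 n) (norm_nonneg _))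
    have h2 := (h1.add (hO.lim (e j))).const_mul (E j)
    rw [zero_add] at h2
    refine h2.congr fun n => ?_
    rw [sub_add_cancel, map_smul, smul_eq_mul]
  have hj00 : j₀ ≠ 0 := fun h => hj₀ (h ▸ hJ0)
  have hlim : Tendsto (fun n => |k n (e j₀) (E j₀ • w n (e j₀)) -
      ∑ j ∈ J, (if j = 0 then 0 else γ j * k n (e j) (E j • w n (e j)))|) atTop
      (𝓝 |E j₀ * Ω (fun x => (i (e j₀) x) ^ 2) -
      ∑ j ∈ J, (if j = 0 then 0 else γ j * (E j * Ω fun x => (i (e j) x) ^ 2))|) := by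
    refine ((hval j₀ (Finset.mem_insert_self _ _) hj00).sub
      (tendsto_finsetSum _ fun j hj => ?_)).abs
    by_cases hj0 : j = 0
    · simp only [hj0, if_true]
      exact tendsto_const_nhds
    · simp only [hj0, if_false]
      exact (hval j (Finset.mem_insert_of_mem hj) hj0).const_mul _
  -- the estimate
  have hmain : ∀ ε : ℝ, 0 < ε → |E j₀ * Ω (fun x => (i (e j₀) x) ^ 2) -
      ∑ j ∈ J, (if j = 0 then 0 else γ j * (E j * Ω fun x => (i (e j) x) ^ 2))| ≤ T * ε := by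
    intro ε hε
    refine le_of_tendsto hlim ?_
    -- for all j
    have hj : ∀ j ∈ insert j₀ J, ∀ᶠ n in atTop, j ≠ 0 →
        (∀ ψ, |E j * (k n (e j) ψ - k n (e j) (e j) * b φ (e j) ψ) -
          (a (E j • w n (e j)) ψ - E j * b φ (E j • w n (e j)) ψ)| ≤ ε * ‖ψ‖) ∧
        |2 * b φ (E j • w n (e j)) (e j) + k n (e j) (e j)| ≤ ε := by
      intro j hj
      obtain ⟨ε', hε'⟩ : ∃ ε' : ℝ, ε' = ε / (4 * (E j + 1)) := ⟨_, rfl⟩
      have hEj := hE0 j
      have hε'0 : 0 < ε' := by rw [hε']; positivity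
      have h1 := hO.res (e j) ε' hε'0
      have h2 : Tendsto (fun n => δ n * ‖e j‖) atTop (𝓝 0) := by
        have := hδt.mul_const ‖e j‖
        rwa [zero_mul] at this
      have h3 : Tendsto (fun n : ℕ => (E j + 1) * (‖ex φ‖ * (C * ((n : ℝ) + 1)⁻¹ * ‖e j‖)))
          atTop (𝓝 0) := by
        have := (hbwt (e j)).const_mul (E j + 1)
        rwa [mul_zero] at this
      have h4 : Tendsto (fun n : ℕ => 2 * E j * (‖ex φ‖ * (C * ((n : ℝ) + 1)⁻¹ * ‖e j‖) * ‖e j‖))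
          atTop (𝓝 0) := by
        have := ((hbwt (e j)).mul_const ‖e j‖).const_mul (2 * E j)
        simpa using this
      filter_upwards [h1, h2.eventually (eventually_lt_nhds hε'0),
        h3.eventually (eventually_lt_nhds hε'0), h4.eventually (eventually_lt_nhds hε)]
        with n h1 h2 h3 h4 hj0
      have hkz := hk0 n j hj hj0
      constructor
      · intro ψ
        have e1 : E j * (k n (e j) ψ - k n (e j) (e j) * b φ (e j) ψ) -
            (a (E j • w n (e j)) ψ - E j * b φ (E j • w n (e j)) ψ) =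
            E j * ((k n (e j) ψ - kf b (h n) (e j) ψ) +
              (kf b (h n) (e j) ψ - a (w n (e j)) ψ) + E j * b φ (w n (e j)) ψ) := by
          rw [hkz]
          simp only [map_smul, _root_.smul_apply, smul_eq_mul]
          ring
        rw [e1, abs_mul, abs_of_nonneg hEj]
        have q1 : |k n (e j) ψ - kf b (h n) (e j) ψ| ≤ ε' * ‖ψ‖ :=
          (hdn n _ _).trans (mul_le_mul_of_nonneg_right h2.le (norm_nonneg _))
        have q2 := h1 ψ
        have q3 : |E j * b φ (w n (e j)) ψ| ≤ ε' * ‖ψ‖ := by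
          rw [abs_mul, abs_of_nonneg hEj]
          calc E j * |b φ (w n (e j)) ψ| ≤
              (E j + 1) * (‖ex φ‖ * (C * ((n : ℝ) + 1)⁻¹ * ‖e j‖) * ‖ψ‖) :=
                mul_le_mul (by linarith) (hbw n _ _) (abs_nonneg _) (by positivity)
            _ = (E j + 1) * (‖ex φ‖ * (C * ((n : ℝ) + 1)⁻¹ * ‖e j‖)) * ‖ψ‖ := by ring
            _ ≤ ε' * ‖ψ‖ := mul_le_mul_of_nonneg_right h3.le (norm_nonneg _)
        have q4 : |(k n (e j) ψ - kf b (h n) (e j) ψ) +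
              (kf b (h n) (e j) ψ - a (w n (e j)) ψ) + E j * b φ (w n (e j)) ψ| ≤
              3 * ε' * ‖ψ‖ := by
          refine (abs_add_le _ _).trans ?_
          have := abs_add_le (k n (e j) ψ - kf b (h n) (e j) ψ)
            (kf b (h n) (e j) ψ - a (w n (e j)) ψ)
          linarith
        calc E j * _ ≤ (E j + 1) * (4 * ε' * ‖ψ‖) := by
              refine mul_le_mul (by linarith) (q4.trans ?_) (abs_nonneg _) (by positivity)
              have := mul_nonneg hε'0.le (norm_nonneg ψ)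
              nlinarith
          _ = ε * ‖ψ‖ := by
              rw [hε']
              field_simp
      · rw [hkz, add_zero]
        simp only [map_smul, _root_.smul_apply, smul_eq_mul]
        rw [← mul_assoc, abs_mul, abs_of_nonneg (by positivity : 0 ≤ 2 * E j)]
        refine le_trans ?_ h4.le
        exact mul_le_mul_of_nonneg_left (hbw n _ _) (by positivity)
    have hjall : ∀ᶠ n in atTop, ∀ j ∈ insert j₀ J, j ≠ 0 →
        (∀ ψ, |E j * (k n (e j) ψ - k n (e j) (e j) * b φ (e j) ψ) -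
          (a (E j • w n (e j)) ψ - E j * b φ (E j • w n (e j)) ψ)| ≤ ε * ‖ψ‖) ∧
        |2 * b φ (E j • w n (e j)) (e j) + k n (e j) (e j)| ≤ ε := by
      rw [Finset.eventually_all]
      exact hj
    filter_upwards [hjall, hδt.eventually (eventually_lt_nhds one_pos)] with n hn hδ1
    have hKk : ∀ u v, |k n u v| ≤ (2 * C + 1) * ‖u‖ * ‖v‖ := by
      intro u v
      calc |k n u v| = |(k n u v - kf b (h n) u v) + kf b (h n) u v| := by ring_nf
        _ ≤ |k n u v - kf b (h n) u v| + |kf b (h n) u v| := abs_add_le _ _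
        _ ≤ 1 * ‖u‖ * ‖v‖ + 2 * C * ‖u‖ * ‖v‖ := by
            refine add_le_add ((hdn n u v).trans ?_) (hO.bd n u v)
            exact mul_le_mul_of_nonneg_right (mul_le_mul_of_nonneg_right hδ1.le (norm_nonneg _))
              (norm_nonneg _)
        _ = _ := by ring
    rw [hk] at hn hKk ⊢
    have h1 := derrel2 hS hB hE hJ0 hj₀ hs (κ := fun l => ι (κ l)) hκ hγ (hy1 n) (hdep (y n))
      (s := fun j => E j • w n (e j)) hε (fun j hj hj0 => (hn j hj hj0).1)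
      (fun j hj hj0 => (hn j hj hj0).2) (by positivity) hKk hCc0 hCc
    refine h1.trans (le_of_eq ?_)
    rw [hT]
    ring
  by_contra hne
  have hpos : 0 < |E j₀ * Ω (fun x => (i (e j₀) x) ^ 2) -
      ∑ j ∈ J, (if j = 0 then 0 else γ j * (E j * Ω fun x => (i (e j) x) ^ 2))| :=
    abs_pos.2 (sub_ne_zero.2 hne)
  set Z := |E j₀ * Ω (fun x => (i (e j₀) x) ^ 2) -
      ∑ j ∈ J, (if j = 0 then 0 else γ j * (E j * Ω fun x => (i (e j) x) ^ 2))| with hZ
  have h1 := hmain (Z / (2 * (T + 1))) (by positivity)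
  have h2 : T * (Z / (2 * (T + 1))) ≤ Z / 2 := by
    rw [mul_div_assoc', div_le_div_iff₀ (by positivity) (by norm_num)]
    nlinarith
  linarith

/-- **there is no relation along sequences in all directions** -/
theorem pt2 [CompleteSpace H] (hS : Sf μ i a) (hB : IsB μ i b) {φ : C(M, ℝ)} {e : ℕ → H}
    {E : ℕ → ℝ} (hE : Eg a (b φ) e E) {J : Finset ℕ} {j₀ : ℕ} (hJ0 : 0 ∈ J) (hj₀ : j₀ ∉ J)
    (hs : ∀ j ∈ insert j₀ J, j ≠ 0 → Sim a b φ j) (hpos : 0 < E j₀)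
    {B : Type} [AddCommGroup B] [Module ℝ B] [TopologicalSpace B]
    (ι : B →L[ℝ] C(M, ℝ)) (hι : DenseRange ι) (hI : Ind μ i φ e J)
    (hrel0 : Rel μ i a b J j₀ φ)
    (hdep : ∀ y : B, Appr μ i a b J j₀ φ (ι y))
    {Fam : Set ((M → ℝ) → ℝ)} (hFam : ∀ Ω ∈ Fam, ∃ h C w, Osc μ i a b Ω h C w)
    (htot : ∀ (c : ℕ → ℝ) (J' : Finset ℕ), (∀ Ω ∈ Fam,
      ∑ j ∈ J', c j * Ω (fun x => (i (e j) x) ^ 2) = 0) →
      ∀ h : C(M, ℝ), ∑ j ∈ J', c j * kap μ i h φ (e j) = 0) : False := by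
  obtain ⟨hF, hb, -⟩ := forms μ i a b hS hB
  have hmm : ∀ j, Ev a (b φ) j = E j := fun j =>
    Pool.Agent.Y592.QE.mm H a (b φ) (hF φ) e E hE j
  obtain ⟨κ, hκ⟩ := dual hS hB hI ι hι
  have hj00 : j₀ ≠ 0 := fun h => hj₀ (h ▸ hJ0)
  obtain ⟨γ, hγ⟩ : ∃ γ : ℕ → ℝ, ∀ h : C(M, ℝ), pw μ i φ h e j₀ =
      ∑ j ∈ J, γ j * pw μ i φ h e j := hrel0 e E hE
  obtain ⟨c, hc⟩ : ∃ c : ℕ → ℝ, c = fun j => if j = j₀ then E j₀ else
    if j = 0 then 0 else -(γ j * E j) := ⟨_, rfl⟩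
  have hsum : ∀ f : ℕ → ℝ, ∑ j ∈ insert j₀ J, c j * f j = E j₀ * f j₀ -
      ∑ j ∈ J, (if j = 0 then 0 else γ j * (E j * f j)) := by
    intro f
    rw [Finset.sum_insert hj₀, sub_eq_add_neg, ← Finset.sum_neg_distrib]
    congr 1
    · rw [hc]; simp
    · refine Finset.sum_congr rfl fun j hj => ?_
      have h1 : j ≠ j₀ := fun h => hj₀ (h ▸ hj)
      rw [hc]
      simp only [h1, if_false]
      split_ifs
      · ring
      · ring
  have h1 := htot c (insert j₀ J) (fun Ω hΩ => by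
    obtain ⟨h, C, w, hO⟩ := hFam Ω hΩ
    rw [hsum (fun j => Ω fun x => (i (e j) x) ^ 2),
      core2 hS hB hE hJ0 hj₀ hs ι hι hκ hγ hdep hO, sub_self])
  have h2 : ∀ h : C(M, ℝ), E j₀ * kap μ i h φ (e j₀) -
      ∑ j ∈ J, (if j = 0 then 0 else γ j * (E j * kap μ i h φ (e j))) = 0 := by
    intro h
    rw [← hsum (fun j => kap μ i h φ (e j))]
    exact h1 h
  have h3 := hI (fun j => if j = 0 then E j₀ * γ 0 else γ j * (E j₀ - E j)) (fun h => by
    have h4 := h2 h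
    have h5 := hγ h
    have h6 : pw μ i φ h e j₀ = kap μ i h φ (e j₀) := by
      unfold pw
      rw [if_neg hj00]
    rw [← h6, h5, Finset.mul_sum, ← Finset.sum_sub_distrib] at h4
    rw [← h4]
    refine Finset.sum_congr rfl fun j _ => ?_
    by_cases hj0 : j = 0
    · simp only [hj0, if_true]
      ring
    · simp only [hj0, if_false]
      unfold pw
      rw [if_neg hj0]
      ring)
  have hγ0 : ∀ j ∈ J, γ j = 0 := by
    intro j hj
    have h4 := h3 j hj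
    by_cases hj0 : j = 0
    · simp only [hj0, if_true] at h4
      rw [hj0]
      exact (mul_eq_zero.1 h4).resolve_left hpos.ne'
    · simp only [hj0, if_false] at h4
      have h5 := hs j₀ (Finset.mem_insert_self _ _) hj00 j (fun h => hj₀ (h ▸ hj))
      rw [hmm, hmm] at h5
      exact (mul_eq_zero.1 h4).resolve_right (sub_ne_zero.2 h5.symm)
  have h7 := hγ 1
  rw [Finset.sum_eq_zero fun j hj => by rw [hγ0 j hj, zero_mul]] at h7
  unfold pw at h7
  rw [if_neg hj00, kap_kf hB, one_mul, kf_ex hB, hE.orth, if_pos rfl] at h7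
  exact one_ne_zero h7

end Pool.Agent.H23.RM
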