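import Mathlib

/-!
# Moments of sums of phases
-/

set_option autoImplicit false

open Set Filter Topology MeasureTheory
open scoped ENNReal NNReal ComplexConjugate

noncomputable section

namespace Pool.Agent.H23.FF

/-- how often the value `j` is taken -/
def cnt {m N : ℕ} (a : Fin m → Fin N) (j : Fin N) : ℕ := (Finset.univ.filter fun i => a i = j).card

/-- pairs of words with the same letters -/
def pairs (N m : ℕ) : Finset ((Fin m → Fin N) × (Fin m → Fin N)) :=
  Finset.univ.filter fun p => ∀ j, cnt p.1 j = cnt p.2 j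

/-- the proportion -/
def pairing (N m : ℕ) : ℝ := ((pairs N m).card : ℝ) / (N : ℝ) ^ m

lemma perm_of_cnt {m N : ℕ} {a b : Fin m → Fin N} (h : ∀ j, cnt a j = cnt b j) :
    ∃ σ : Equiv.Perm (Fin m), b = fun i => a (σ i) := by
  have e : ∀ j, {i // b i = j} ≃ {i // a i = j} := fun j => Fintype.equivOfCardEq (by
    have h1 := (h j).symm
    unfold cnt at h1
    rw [Fintype.card_subtype, Fintype.card_subtype]
    exact h1)
  refine ⟨(Equiv.sigmaFiberEquiv b).symm.trans ((Equiv.sigmaCongrRight e).trans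
    (Equiv.sigmaFiberEquiv a)), ?_⟩
  funext i
  have h2 := (e (b i) ⟨i, rfl⟩).2
  simp only [Equiv.trans_apply, Equiv.sigmaFiberEquiv, Equiv.coe_fn_symm_mk,
    Equiv.sigmaCongrRight_apply, Sigma.map, Equiv.coe_fn_mk]
  exact h2.symm

lemma cnt_perm {m N : ℕ} (a : Fin m → Fin N) (σ : Equiv.Perm (Fin m)) (j : Fin N) :
    cnt (fun i => a (σ i)) j = cnt a j := by
  unfold cnt
  refine Finset.card_bij (fun i _ => σ i) ?_ ?_ ?_
  · intro i hi
    simpa using hi
  · intro i _ i' _ h
    exact σ.injective h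
  · intro i hi
    exact ⟨σ.symm i, by simpa using hi, by simp⟩

lemma pairs_le (N m : ℕ) : (pairs N m).card ≤ N ^ m * m.factorial := by
  classical
  have h1 : pairs N m ⊆ (Finset.univ : Finset ((Fin m → Fin N) × Equiv.Perm (Fin m))).image
      fun q => (q.1, fun i => q.1 (q.2 i)) := by
    rintro ⟨a, b⟩ h
    obtain ⟨σ, hσ⟩ := perm_of_cnt (a := a) (b := b) (by simpa [pairs] using h)
    rw [Finset.mem_image]
    exact ⟨(a, σ), Finset.mem_univ _, by rw [hσ]⟩
  refine (Finset.card_le_card h1).trans (Finset.card_image_le.trans ?_)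
  rw [Finset.card_univ, Fintype.card_prod, Fintype.card_perm]
  simp

lemma le_pairs (N m : ℕ) : N.descFactorial m * m.factorial ≤ (pairs N m).card := by
  classical
  have h1 : (Finset.univ : Finset ((Fin m ↪ Fin N) × Equiv.Perm (Fin m))).card =
      N.descFactorial m * m.factorial := by
    rw [Finset.card_univ, Fintype.card_prod, Fintype.card_perm, Fintype.card_embedding_eq]
    simp
  rw [← h1]
  refine Finset.card_le_card_of_injOn (fun q => (⇑q.1, fun i => q.1 (q.2 i))) ?_ ?_
  · rintro ⟨a, σ⟩ _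
    simp only [pairs, Finset.coe_filter, Finset.mem_univ, true_and, mem_setOf_eq]
    exact fun j => (cnt_perm (⇑a) σ j).symm
  · rintro ⟨a, σ⟩ _ ⟨a', σ'⟩ _ h
    simp only [Prod.mk.injEq] at h
    obtain ⟨h2, h3⟩ := h
    have h4 : a = a' := DFunLike.coe_injective h2
    subst h4
    refine Prod.ext rfl ?_
    ext i
    have h5 := congrFun h3 i
    simp only [EmbeddingLike.apply_eq_iff_eq] at h5
    exact congrArg Fin.val h5

lemma pairing_le (N m : ℕ) : pairing N m ≤ m.factorial := by
  unfold pairing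
  have h1 : ((pairs N m).card : ℝ) ≤ (N : ℝ) ^ m * m.factorial := by exact_mod_cast pairs_le N m
  refine div_le_of_le_mul₀ (by positivity) (by positivity) ?_
  rw [mul_comm]
  exact h1

lemma le_pairing {N : ℕ} (hN : 0 < N) (m : ℕ) :
    (((N + 1 - m : ℕ) : ℝ) / N) ^ m * m.factorial ≤ pairing N m := by
  unfold pairing
  have h1 : (N.descFactorial m * m.factorial : ℝ) ≤ (pairs N m).card := by
    exact_mod_cast le_pairs N m
  have h2 : ((N + 1 - m : ℕ) : ℝ) ^ m ≤ N.descFactorial m := by
    exact_mod_cast Nat.pow_sub_le_descFactorial N m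
  have hN0 : (0 : ℝ) < N := by exact_mod_cast hN
  rw [div_pow, le_div_iff₀ (by positivity)]
  calc ((N + 1 - m : ℕ) : ℝ) ^ m / (N : ℝ) ^ m * m.factorial * (N : ℝ) ^ m =
      ((N + 1 - m : ℕ) : ℝ) ^ m * m.factorial := by field_simp
    _ ≤ N.descFactorial m * m.factorial := by gcongr
    _ ≤ _ := h1

lemma pairing_one {N : ℕ} (hN : 0 < N) : pairing N 1 = 1 := by
  refine le_antisymm (by simpa using pairing_le N 1) ?_
  have h := le_pairing hN 1
  have hN0 : (N : ℝ) ≠ 0 := by exact_mod_cast hN.ne'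
  simpa [div_self hN0] using h

lemma pairing_tendsto (m : ℕ) : Tendsto (fun N => pairing N m) atTop (𝓝 (m.factorial : ℝ)) := by
  have h1 : Tendsto (fun N : ℕ => ((N + 1 - m : ℕ) : ℝ) / N) atTop (𝓝 1) := by
    have h2 : Tendsto (fun N : ℕ => 1 + (1 - (m : ℝ)) / N) atTop (𝓝 (1 + 0)) :=
      (tendsto_const_div_atTop_nhds_zero_nat _).const_add 1
    rw [add_zero] at h2
    refine h2.congr' ?_
    filter_upwards [eventually_ge_atTop (m + 1)] with N hN
    have h3 : ((N + 1 - m : ℕ) : ℝ) = (N : ℝ) + 1 - m := by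
      rw [Nat.cast_sub (by omega)]
      push_cast
      ring
    have h4 : (0 : ℝ) < N := by
      have : 0 < N := by omega
      exact_mod_cast this
    rw [h3]
    field_simp
    ring
  have h2 : Tendsto (fun N : ℕ => (((N + 1 - m : ℕ) : ℝ) / N) ^ m * m.factorial) atTop
      (𝓝 (m.factorial : ℝ)) := by
    have := (h1.pow m).mul_const (m.factorial : ℝ)
    rwa [one_pow, one_mul] at this
  refine tendsto_of_tendsto_of_tendsto_of_le_of_le' h2 tendsto_const_nhds ?_
    (Eventually.of_forall fun N => pairing_le N m)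
  filter_upwards [eventually_gt_atTop 0] with N hN
  exact le_pairing hN m

/-- the phase -/
def ph (x : ℝ) : ℂ := Complex.exp (2 * Real.pi * Complex.I * x)

lemma ph_add (x y : ℝ) : ph (x + y) = ph x * ph y := by
  unfold ph
  rw [← Complex.exp_add]
  congr 1
  push_cast
  ring

lemma ph_zero : ph 0 = 1 := by simp [ph]

lemma ph_norm (x : ℝ) : ‖ph x‖ = 1 := by
  unfold ph
  rw [show (2 * Real.pi * Complex.I * x : ℂ) = ((2 * Real.pi * x : ℝ) : ℂ) * Complex.I by
    push_cast; ring]
  exact Complex.norm_exp_ofReal_mul_I _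

lemma ph_conj (x : ℝ) : conj (ph x) = ph (-x) := by
  unfold ph
  rw [show (2 * Real.pi * Complex.I * x : ℂ) = ((2 * Real.pi * x : ℝ) : ℂ) * Complex.I by
    push_cast; ring, ← Complex.exp_conj, map_mul, Complex.conj_ofReal, Complex.conj_I]
  congr 1
  push_cast
  ring

lemma ph_cont : Continuous ph := by
  unfold ph
  fun_prop

lemma ph_sum {ι : Type} (s : Finset ι) (f : ι → ℝ) : ph (∑ i ∈ s, f i) = ∏ i ∈ s, ph (f i) := by
  classical
  induction s using Finset.induction_on with
  | empty => simp [ph_zero]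
  | insert i s hi ih => rw [Finset.sum_insert hi, Finset.prod_insert hi, ph_add, ih]

/-- the expansion of the moments -/
lemma expand {N m : ℕ} (y : Fin N → ℝ) :
    (((‖∑ l, ph (y l)‖ ^ 2 / N) ^ m : ℝ) : ℂ) =
      ((N : ℂ) ^ m)⁻¹ * ∑ p : (Fin m → Fin N) × (Fin m → Fin N),
        ph (∑ j, ((cnt p.1 j : ℝ) - cnt p.2 j) * y j) := by
  have h1 : ((‖∑ l, ph (y l)‖ ^ 2 : ℝ) : ℂ) = (∑ l, ph (y l)) * ∑ l, ph (-y l) := by
    rw [← Complex.normSq_eq_norm_sq, Complex.normSq_eq_conj_mul_self, map_sum, mul_comm]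
    simp only [ph_conj]
  have h2 : ((((‖∑ l, ph (y l)‖ ^ 2 / N) ^ m : ℝ)) : ℂ) =
      ((N : ℂ) ^ m)⁻¹ * ((∑ l, ph (y l)) ^ m * (∑ l, ph (-y l)) ^ m) := by
    rw [← mul_pow, ← h1]
    push_cast
    rw [div_pow, div_eq_inv_mul]
  have h4 : ∀ (a : Fin m → Fin N) (z : Fin N → ℝ), ∑ i, z (a i) = ∑ j, (cnt a j : ℝ) * z j := by
    intro a z
    rw [← Finset.sum_fiberwise Finset.univ a fun i => z (a i)]
    refine Finset.sum_congr rfl fun j _ => ?_
    rw [Finset.sum_congr rfl (g := fun _ => z j) fun i hi => by rw [(Finset.mem_filter.1 hi).2],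
      Finset.sum_const, nsmul_eq_mul]
    rfl
  have h5 : ∀ (z : Fin N → ℝ), (∑ l, ph (z l)) ^ m = ∑ a : Fin m → Fin N,
      ph (∑ j, (cnt a j : ℝ) * z j) := by
    intro z
    rw [Fintype.sum_pow]
    refine Finset.sum_congr rfl fun a _ => ?_
    rw [← h4, ph_sum]
  rw [h2, h5, h5 (fun l => -y l), Finset.sum_mul_sum, ← Finset.sum_product']
  congr 1
  refine Finset.sum_congr rfl fun p _ => ?_
  rw [← ph_add, ← Finset.sum_add_distrib]
  congr 1
  refine Finset.sum_congr rfl fun j _ => ?_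
  ring

/-- **the limits of the moments** -/
theorem moments {ι : Type} {F : Filter ι} {N : ℕ} {ν : ι → Measure (Fin N → ℝ)}
    (hν : ∀ i, IsProbabilityMeasure (ν i))
    (h0 : ∀ k : Fin N → ℤ, k ≠ 0 → Tendsto (fun i => ∫ y, ph (∑ j, (k j : ℝ) * y j) ∂(ν i)) F (𝓝 0))
    (m : ℕ) : Tendsto (fun i => ∫ y, (‖∑ l, ph (y l)‖ ^ 2 / N) ^ m ∂(ν i)) F (𝓝 (pairing N m)) := by
  have hint : ∀ i (c : Fin N → ℝ), Integrable (fun y : Fin N → ℝ => ph (∑ j, c j * y j)) (ν i) := by
    intro i c
    have := hν i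
    refine Integrable.of_bound (C := 1) ?_ (Eventually.of_forall fun y => (ph_norm _).le)
    exact (ph_cont.comp (by fun_prop)).aestronglyMeasurable
  have h1 : ∀ i, ((∫ y, (‖∑ l, ph (y l)‖ ^ 2 / N) ^ m ∂(ν i) : ℝ) : ℂ) =
      ((N : ℂ) ^ m)⁻¹ * ∑ p : (Fin m → Fin N) × (Fin m → Fin N),
        ∫ y, ph (∑ j, ((cnt p.1 j : ℝ) - cnt p.2 j) * y j) ∂(ν i) := by
    intro i
    rw [← integral_complex_ofReal]
    simp only [expand]
    rw [integral_const_mul, integral_finset_sum _ fun p _ => hint i _]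
  have h2 : ∀ p : (Fin m → Fin N) × (Fin m → Fin N), Tendsto (fun i =>
      ∫ y, ph (∑ j, ((cnt p.1 j : ℝ) - cnt p.2 j) * y j) ∂(ν i)) F
      (𝓝 (if p ∈ pairs N m then 1 else 0)) := by
    intro p
    by_cases hp : p ∈ pairs N m
    · rw [if_pos hp]
      have h3 : ∀ j, cnt p.1 j = cnt p.2 j := by simpa [pairs] using hp
      have h4 : ∀ i, ∫ y, ph (∑ j, ((cnt p.1 j : ℝ) - cnt p.2 j) * y j) ∂(ν i) = 1 := by
        intro i
        have := hν i
        simp only [h3, sub_self, zero_mul, Finset.sum_const_zero, ph_zero]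
        simp
      simp only [h4]
      exact tendsto_const_nhds
    · rw [if_neg hp]
      have h3 : (fun j => (cnt p.1 j : ℤ) - cnt p.2 j) ≠ 0 := by
        intro h
        refine hp ?_
        simp only [pairs, Finset.mem_filter, Finset.mem_univ, true_and]
        intro j
        have h4 := congrFun h j
        simp only [Pi.zero_apply] at h4
        omega
      have h4 := h0 _ h3
      push_cast at h4
      exact h4
  have h3 : Tendsto (fun i => ((∫ y, (‖∑ l, ph (y l)‖ ^ 2 / N) ^ m ∂(ν i) : ℝ) : ℂ)) F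
      (𝓝 ((pairing N m : ℝ) : ℂ)) := by
    simp only [h1]
    have h4 := (tendsto_finset_sum Finset.univ fun p _ => h2 p).const_mul ((N : ℂ) ^ m)⁻¹
    convert h4 using 2
    rw [Finset.sum_ite_mem, Finset.univ_inter, Finset.sum_const, nsmul_eq_mul, mul_one]
    unfold pairing
    push_cast
    rw [div_eq_inv_mul]
  have h4 := (Complex.continuous_re.tendsto _).comp h3
  simpa only [Function.comp_def, Complex.ofReal_re] using h4

lemma mf_coe {N : ℕ} (k : Fin N → ℤ) (y : Fin N → ℝ) :
    UnitAddTorus.mFourier k (fun j => (y j : UnitAddCircle)) = ph (∑ j, (k j : ℝ) * y j) := by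
  rw [ph_sum]
  show ∏ j, fourier (k j) (y j : UnitAddCircle) = _
  refine Finset.prod_congr rfl fun j _ => ?_
  rw [fourier_coe_apply]
  unfold ph
  congr 1
  push_cast
  ring

/-- the uniform measure on the torus -/
def um (N : ℕ) : Measure (UnitAddTorus (Fin N)) := Measure.pi fun _ => AddCircle.haarAddCircle

instance (N : ℕ) : IsProbabilityMeasure (um N) :=
  inferInstanceAs (IsProbabilityMeasure (Measure.pi fun _ : Fin N => AddCircle.haarAddCircle))

lemma mf_int {N : ℕ} (k : Fin N → ℤ) :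
    ∫ z, UnitAddTorus.mFourier k z ∂(um N) = if k = 0 then 1 else 0 := by
  have h1 := (orthonormal_iff_ite.1 (UnitAddTorus.orthonormal_mFourier (d := Fin N))) 0 k
  rw [UnitAddTorus.mFourierLp, UnitAddTorus.mFourierLp, ContinuousMap.inner_toLp] at h1
  have h2 : ∀ z : UnitAddTorus (Fin N), UnitAddTorus.mFourier k z *
      conj (UnitAddTorus.mFourier (0 : Fin N → ℤ) z) = UnitAddTorus.mFourier k z := by
    intro z
    have h3 : UnitAddTorus.mFourier (0 : Fin N → ℤ) z = 1 := by
      show ∏ j, fourier ((0 : Fin N → ℤ) j) (z j) = 1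
      simp
    rw [h3, map_one, mul_one]
  simp only [h2] at h1
  refine h1.trans ?_
  by_cases hk : k = 0
  · rw [if_pos hk, if_pos hk.symm]
  · rw [if_neg hk, if_neg fun h => hk h.symm]

/-- **the equidistribution of the phases** -/
theorem torus {ι : Type} {F : Filter ι} {N : ℕ} {ν : ι → Measure (Fin N → ℝ)}
    (hν : ∀ i, IsProbabilityMeasure (ν i))
    (h0 : ∀ k : Fin N → ℤ, k ≠ 0 → Tendsto (fun i => ∫ y, ph (∑ j, (k j : ℝ) * y j) ∂(ν i)) F (𝓝 0))
    (f : C(UnitAddTorus (Fin N), ℂ)) :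
    Tendsto (fun i => ∫ y, f (fun j => (y j : UnitAddCircle)) ∂(ν i)) F (𝓝 (∫ z, f z ∂(um N))) := by
  have hc : Continuous fun y : Fin N → ℝ => (fun j => (y j : UnitAddCircle) : UnitAddTorus (Fin N)) := by
    refine continuous_pi fun j => ?_
    exact (AddCircle.continuous_mk' 1).comp (continuous_apply j)
  have hi : ∀ i (g : C(UnitAddTorus (Fin N), ℂ)),
      Integrable (fun y : Fin N → ℝ => g (fun j => (y j : UnitAddCircle))) (ν i) := by
    intro i g
    have := hν i
    exact Integrable.of_bound (C := ‖g‖) (g.continuous.comp hc).aestronglyMeasurable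
      (Eventually.of_forall fun y => g.norm_coe_le_norm _)
  have hi' : ∀ g : C(UnitAddTorus (Fin N), ℂ), Integrable (fun z => g z) (um N) := fun g =>
    Integrable.of_bound (C := ‖g‖) g.continuous.aestronglyMeasurable
      (Eventually.of_forall fun y => g.norm_coe_le_norm _)
  have hspan : ∀ g ∈ Submodule.span ℂ (range (UnitAddTorus.mFourier (d := Fin N))),
      Tendsto (fun i => ∫ y, g (fun j => (y j : UnitAddCircle)) ∂(ν i)) F
        (𝓝 (∫ z, g z ∂(um N))) := by
    intro g hg
    induction hg using Submodule.span_induction with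
    | mem x hx =>
      obtain ⟨k, rfl⟩ := hx
      simp only [mf_coe, mf_int]
      by_cases hk : k = 0
      · rw [if_pos hk]
        have h4 : ∀ i, ∫ y : Fin N → ℝ, ph (∑ j, (k j : ℝ) * y j) ∂(ν i) = 1 := by
          intro i
          have := hν i
          simp only [hk, Pi.zero_apply, Int.cast_zero, zero_mul, Finset.sum_const_zero, ph_zero]
          simp
        simp only [h4]
        exact tendsto_const_nhds
      · rw [if_neg hk]
        exact h0 k hk
    | zero =>
      simp only [ContinuousMap.zero_apply, integral_zero]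
      exact tendsto_const_nhds
    | add x y _ _ hx hy =>
      simp only [ContinuousMap.add_apply]
      rw [integral_add (hi' x) (hi' y)]
      refine (hx.add hy).congr fun i => ?_
      rw [← integral_add (hi i x) (hi i y)]
    | smul c x _ hx =>
      simp only [ContinuousMap.smul_apply, smul_eq_mul]
      rw [integral_const_mul]
      refine (hx.const_mul c).congr fun i => ?_
      rw [← integral_const_mul]
  rw [Metric.tendsto_nhds]
  intro ε hε
  have hf : f ∈ closure (Submodule.span ℂ (range (UnitAddTorus.mFourier (d := Fin N))) :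
      Set C(UnitAddTorus (Fin N), ℂ)) := by
    rw [← Submodule.topologicalClosure_coe, UnitAddTorus.span_mFourier_closure_eq_top]
    exact mem_univ _
  obtain ⟨g, hg, hgf⟩ := Metric.mem_closure_iff.1 hf (ε / 4) (by positivity)
  rw [dist_eq_norm] at hgf
  filter_upwards [Metric.tendsto_nhds.1 (hspan g hg) (ε / 4) (by positivity)] with i h1
  have := hν i
  have h2 : ‖∫ y, f (fun j => (y j : UnitAddCircle)) ∂(ν i) -
      ∫ y, g (fun j => (y j : UnitAddCircle)) ∂(ν i)‖ ≤ ε / 4 := by
    rw [← integral_sub (hi i f) (hi i g)]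
    have h3 := norm_integral_le_of_norm_le_const (μ := ν i) (C := ε / 4)
      (f := fun y : Fin N → ℝ => f (fun j => (y j : UnitAddCircle)) -
        g (fun j => (y j : UnitAddCircle))) (Eventually.of_forall fun y =>
        ((f - g).norm_coe_le_norm _).trans hgf.le)
    simpa using h3
  have h3 : ‖(∫ z, g z ∂(um N)) - ∫ z, f z ∂(um N)‖ ≤ ε / 4 := by
    rw [← integral_sub (hi' g) (hi' f)]
    have h3 := norm_integral_le_of_norm_le_const (μ := um N) (C := ε / 4)
      (f := fun z => g z - f z) (Eventually.of_forall fun z => by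
        have h5 := (f - g).norm_coe_le_norm z
        rw [ContinuousMap.sub_apply, norm_sub_rev] at h5
        exact h5.trans hgf.le)
    simpa using h3
  rw [dist_eq_norm] at h1 ⊢
  calc ‖∫ y, f (fun j => (y j : UnitAddCircle)) ∂(ν i) - ∫ z, f z ∂(um N)‖ =
      ‖(∫ y, f (fun j => (y j : UnitAddCircle)) ∂(ν i) -
        ∫ y, g (fun j => (y j : UnitAddCircle)) ∂(ν i)) +
        (∫ y, g (fun j => (y j : UnitAddCircle)) ∂(ν i) - ∫ z, g z ∂(um N)) +
        ((∫ z, g z ∂(um N)) - ∫ z, f z ∂(um N))‖ := by congr 1; ring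
    _ ≤ ε / 4 + ε / 4 + ε / 4 := (norm_add₃_le).trans (add_le_add (add_le_add h2 h1.le) h3)
    _ < ε := by linarith

/-- the characteristic function of an absolutely continuous law tends to zero -/
theorem ensemble {Ω : Type} [MeasurableSpace Ω] {P : Measure Ω} [IsProbabilityMeasure P] {N : ℕ}
    {X : Ω → Fin N → ℝ} (hX : Measurable X)
    (hac : ∀ S : Set (Fin N → ℝ), volume S = 0 → ∀ᵐ ω ∂P, X ω ∉ S) (k : Fin N → ℤ) (hk : k ≠ 0) :
    Tendsto (fun t : ℝ => ∫ ω, ph (∑ j, (k j : ℝ) * (t * X ω j)) ∂P) atTop (𝓝 0) := by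
  obtain ⟨κ, hκ⟩ : ∃ κ : Measure (Fin N → ℝ), κ = P.map X := ⟨_, rfl⟩
  have hκp : IsProbabilityMeasure κ := by
    rw [hκ]
    exact Measure.isProbabilityMeasure_map hX.aemeasurable
  have hκac : κ ≪ volume := by
    refine Measure.AbsolutelyContinuous.mk fun S hS h => ?_
    rw [hκ, Measure.map_apply hX hS]
    exact measure_eq_zero_iff_ae_notMem.2 (hac S h)
  obtain ⟨w, hw⟩ : ∃ w : ℝ → StrongDual ℝ (Fin N → ℝ), ∀ t y, w t y = -∑ j, (k j : ℝ) * (t * y j) := by
    refine ⟨fun t => -(∑ j, ((k j : ℝ) * t) • (ContinuousLinearMap.proj j :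
      (Fin N → ℝ) →L[ℝ] ℝ)), fun t y => ?_⟩
    simp only [neg_apply, sum_apply, ContinuousLinearMap.coe_smul', Pi.smul_apply,
      ContinuousLinearMap.proj_apply, smul_eq_mul, neg_inj]
    exact Finset.sum_congr rfl fun j _ => by ring
  obtain ⟨j₀, hj₀⟩ : ∃ j₀, k j₀ ≠ 0 := by
    by_contra h
    push Not at h
    exact hk (funext h)
  have hwt : Tendsto w atTop (cocompact (StrongDual ℝ (Fin N → ℝ))) := by
    refine tendsto_cocompact_of_tendsto_dist_comp_atTop 0 ?_
    refine tendsto_atTop_mono (f := fun t : ℝ => |(k j₀ : ℝ)| * t) (fun t => ?_) ?_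
    · rw [dist_zero_right]
      have h1 := (w t).le_opNorm (Pi.single j₀ 1)
      rw [hw, Finset.sum_eq_single j₀ (fun j _ hj => by rw [Pi.single_eq_of_ne hj]; ring)
        (fun h => absurd (Finset.mem_univ _) h), Pi.single_eq_same, norm_neg, mul_one,
        norm_mul, Real.norm_eq_abs, Real.norm_eq_abs] at h1
      have h2 : ‖(Pi.single j₀ 1 : Fin N → ℝ)‖ = 1 := by
        rw [Pi.norm_single]
        simp
      rw [h2, mul_one] at h1
      refine le_trans ?_ h1
      exact mul_le_mul_of_nonneg_left (le_abs_self t) (abs_nonneg _)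
    · refine tendsto_id.const_mul_atTop ?_
      exact abs_pos.2 (by exact_mod_cast hj₀)
  have h1 := (tendsto_integral_exp_smul_cocompact
    (fun y : Fin N → ℝ => ((κ.rnDeriv volume y).toReal : ℂ)) volume).comp hwt
  refine h1.congr fun t => ?_
  simp only [Function.comp]
  have h2 : ∀ y : Fin N → ℝ, Real.fourierChar (-(w t) y) • ((κ.rnDeriv volume y).toReal : ℂ) =
      (κ.rnDeriv volume y).toReal • ph (∑ j, (k j : ℝ) * (t * y j)) := by
    intro y
    rw [hw, neg_neg, Circle.smul_def, Real.fourierChar_apply, smul_eq_mul, mul_comm,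
      Complex.real_smul]
    unfold ph
    congr 2
    push_cast
    ring
  simp only [h2]
  rw [integral_rnDeriv_smul hκac, hκ, integral_map hX.aemeasurable]
  exact (ph_cont.comp (by fun_prop)).aestronglyMeasurable

end Pool.Agent.H23.FF
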