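import Mathlib

/-!
# Random metrics: quasi-invariant measures and finite-dimensional slices
-/

set_option autoImplicit false
set_option linter.unusedSectionVars false

open Set Filter Topology MeasureTheory
open scoped ENNReal NNReal

noncomputable section

namespace Pool.Agent.H23.RM

section abs

variable {E : Type} [NormedAddCommGroup E] [NormedSpace ℝ E] [MeasurableSpace E] [BorelSpace E]
  [SecondCountableTopology E]

/-- admissible directions -/
def Adm (P : Measure E) (v : E) : Prop := ∀ t : ℝ, P.map (fun φ => φ + t • v) ≪ P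

lemma meas_add (w : E) : Measurable fun φ : E => φ + w := (continuous_id.add continuous_const).measurable

lemma adm_add {P : Measure E} {v w : E} (hv : Adm P v) (hw : Adm P w) : Adm P (v + w) := by
  intro t
  have h1 : P.map (fun φ => φ + t • (v + w)) =
      (P.map (fun φ => φ + t • v)).map (fun φ => φ + t • w) := by
    rw [Measure.map_map (meas_add _) (meas_add _)]
    congr 1
    funext φ
    simp only [Function.comp, smul_add, add_assoc]
  rw [h1]
  exact ((hv t).map (meas_add (t • w))).trans (hw t)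

lemma adm_smul {P : Measure E} {v : E} (c : ℝ) (hv : Adm P v) : Adm P (c • v) := by
  intro t
  have h1 := hv (t * c)
  simpa only [mul_smul] using h1

lemma adm_zero {P : Measure E} : Adm P (0 : E) := by
  intro t
  simp only [smul_zero, add_zero, Measure.map_id']
  exact Measure.AbsolutelyContinuous.rfl

lemma adm_span {P : Measure E} {S : Set E} (hS : ∀ h ∈ S, Adm P h) {v : E}
    (hv : v ∈ Submodule.span ℝ S) : Adm P v := by
  induction hv using Submodule.span_induction with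
  | mem x hx => exact hS x hx
  | zero => exact adm_zero
  | add x y _ _ hx hy => exact adm_add hx hy
  | smul c x _ hx => exact adm_smul c hx

/-- Fubini's theorem along the translates of a finite-dimensional subspace -/
theorem fub {P : Measure E} [IsFiniteMeasure P] {n : ℕ} (h : Fin n → E) (hh : ∀ i, Adm P (h i))
    {A : Set E} (hA : MeasurableSet A) {δ : ℝ} (hδ : 0 < δ)
    (h0 : ∀ φ ∈ A, volume {s : Fin n → ℝ | s ∈ Metric.ball (0 : Fin n → ℝ) δ ∧
      φ + ∑ i, s i • h i ∈ A} = 0) : P A = 0 := by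
  obtain ⟨f, hf⟩ : ∃ f : (Fin n → ℝ) → E, f = fun s => ∑ i, s i • h i := ⟨_, rfl⟩
  have hfc : Continuous f := by rw [hf]; fun_prop
  have hfadd : ∀ s s', f (s + s') = f s + f s' := by
    intro s s'
    rw [hf]
    simp only [Pi.add_apply, add_smul, Finset.sum_add_distrib]
  have hfadm : ∀ s, Adm P (f s) := by
    intro s
    refine adm_span (S := range h) (by rintro _ ⟨i, rfl⟩; exact hh i) ?_
    rw [hf]
    exact Submodule.sum_mem _ fun i _ => Submodule.smul_mem _ _ (Submodule.subset_span ⟨i, rfl⟩)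
  have h0' : ∀ φ ∈ A, volume {s : Fin n → ℝ | s ∈ Metric.ball (0 : Fin n → ℝ) δ ∧
      φ + f s ∈ A} = 0 := by
    rw [hf]
    exact h0
  have h1 : ∀ φ, volume {s : Fin n → ℝ | s ∈ Metric.ball (0 : Fin n → ℝ) (δ / 2) ∧
      φ + f s ∈ A} = 0 := by
    intro φ
    by_cases hne : ∃ s₀, s₀ ∈ Metric.ball (0 : Fin n → ℝ) (δ / 2) ∧ φ + f s₀ ∈ A
    · obtain ⟨s₀, hs₀, hs₀A⟩ := hne
      have h2 := h0' _ hs₀A
      have h3 : {s : Fin n → ℝ | s ∈ Metric.ball (0 : Fin n → ℝ) (δ / 2) ∧ φ + f s ∈ A} ⊆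
          (fun s => -s₀ + s) ⁻¹' {s : Fin n → ℝ | s ∈ Metric.ball (0 : Fin n → ℝ) δ ∧
            φ + f s₀ + f s ∈ A} := by
        rintro s ⟨hs1, hs2⟩
        refine ⟨?_, ?_⟩
        · rw [mem_ball_zero_iff] at hs₀ hs1 ⊢
          have h5 : ‖-s₀ + s‖ ≤ ‖-s₀‖ + ‖s‖ := norm_add_le _ _
          rw [norm_neg] at h5
          linarith
        · show φ + f s₀ + f (-s₀ + s) ∈ A
          have h4 : φ + f s₀ + f (-s₀ + s) = φ + f s := by
            rw [add_assoc, ← hfadd]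
            congr 2
            abel
          rw [h4]
          exact hs2
      refine measure_mono_null h3 ?_
      rw [measure_preimage_add]
      exact h2
    · have h2 : {s : Fin n → ℝ | s ∈ Metric.ball (0 : Fin n → ℝ) (δ / 2) ∧ φ + f s ∈ A} = ∅ := by
        rw [eq_empty_iff_forall_notMem]
        exact fun s hs => hne ⟨s, hs⟩
      rw [h2, measure_empty]
  obtain ⟨Z, hZ⟩ : ∃ Z : Set (E × (Fin n → ℝ)), Z = {z | z.2 ∈ Metric.ball (0 : Fin n → ℝ) (δ / 2) ∧
      z.1 + f z.2 ∈ A} := ⟨_, rfl⟩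
  have hZm : MeasurableSet Z := by
    rw [hZ]
    refine (measurable_snd Metric.isOpen_ball.measurableSet).inter ?_
    exact (continuous_fst.add (hfc.comp continuous_snd)).measurable hA
  have h2 : ∀ᵐ s : Fin n → ℝ, P {φ | s ∈ Metric.ball (0 : Fin n → ℝ) (δ / 2) ∧ φ + f s ∈ A} = 0 := by
    have h3 : (P.prod (volume : Measure (Fin n → ℝ))) Z = 0 := by
      rw [Measure.measure_prod_null hZm]
      refine Eventually.of_forall fun φ => ?_
      have := h1 φ
      rw [hZ]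
      exact this
    have h4 : ((volume : Measure (Fin n → ℝ)).prod P) (Prod.swap ⁻¹' Z) = 0 := by
      rw [← h3]
      exact (Measure.measurePreserving_swap (μ := (volume : Measure (Fin n → ℝ)))
        (ν := P)).measure_preimage hZm.nullMeasurableSet
    rw [Measure.measure_prod_null (measurable_swap hZm)] at h4
    filter_upwards [h4] with s hs
    rw [hZ] at hs
    exact hs
  obtain ⟨s, hs1, hs2⟩ : ∃ s, s ∈ Metric.ball (0 : Fin n → ℝ) (δ / 2) ∧ P {φ | φ + f s ∈ A} = 0 := by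
    by_contra hne
    push Not at hne
    have h3 : Metric.ball (0 : Fin n → ℝ) (δ / 2) ⊆ {s | ¬ P {φ | s ∈ Metric.ball (0 : Fin n → ℝ)
        (δ / 2) ∧ φ + f s ∈ A} = 0} := by
      intro s hs h4
      refine hne s hs ?_
      have h5 : {φ | s ∈ Metric.ball (0 : Fin n → ℝ) (δ / 2) ∧ φ + f s ∈ A} =
          {φ | φ + f s ∈ A} := by
        ext φ
        exact ⟨fun h => h.2, fun h => ⟨hs, h⟩⟩
      rwa [h5] at h4
    have h4 := measure_mono_null h3 (ae_iff.1 h2)
    exact (Metric.measure_ball_pos volume (0 : Fin n → ℝ) (half_pos hδ)).ne' h4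
  have h3 := hfadm s (-1) hs2
  have hm : MeasurableSet {φ | φ + f s ∈ A} := (meas_add (f s)) hA
  rw [Measure.map_apply (meas_add _) hm] at h3
  have h4 : (fun φ : E => φ + (-1 : ℝ) • f s) ⁻¹' {φ | φ + f s ∈ A} = A := by
    ext φ
    simp only [mem_preimage, mem_setOf_eq, neg_smul, one_smul, neg_add_cancel_right]
  rwa [h4] at h3

/-- the measure of the slices is a measurable function -/
lemma slice_meas {n : ℕ} (h : Fin n → E) {A : Set E} (hA : MeasurableSet A) (δ : ℝ) :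
    Measurable fun φ : E => volume {s : Fin n → ℝ | s ∈ Metric.ball (0 : Fin n → ℝ) δ ∧
      φ + ∑ i, s i • h i ∈ A} := by
  obtain ⟨f, hf⟩ : ∃ f : (Fin n → ℝ) → E, f = fun s => ∑ i, s i • h i := ⟨_, rfl⟩
  have hfc : Continuous f := by rw [hf]; fun_prop
  obtain ⟨Z, hZ⟩ : ∃ Z : Set (E × (Fin n → ℝ)), Z = {z | z.2 ∈ Metric.ball (0 : Fin n → ℝ) δ ∧
      z.1 + f z.2 ∈ A} := ⟨_, rfl⟩
  have hZm : MeasurableSet Z := by
    rw [hZ]
    refine (measurable_snd Metric.isOpen_ball.measurableSet).inter ?_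
    exact (continuous_fst.add (hfc.comp continuous_snd)).measurable hA
  have h1 := measurable_measure_prodMk_left (ν := (volume : Measure (Fin n → ℝ))) hZm
  rw [hZ, hf] at h1
  exact h1

/-- almost every point of a set is a limit of other points of the set on the lines in countably many
admissible directions -/
theorem ae_limit {P : Measure E} [IsFiniteMeasure P] {D : Set E} (hD : D.Countable)
    (hadm : ∀ h ∈ D, Adm P h) {A : Set E} (hA : MeasurableSet A) :
    ∀ᵐ φ ∂P, φ ∈ A → ∀ h ∈ D, ∀ k : ℕ, ∃ t : ℝ, t ≠ 0 ∧ |t| < 1 / ((k : ℝ) + 1) ∧ φ + t • h ∈ A := by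
  have key : ∀ h ∈ D, ∀ k : ℕ, ∀ᵐ φ ∂P, φ ∈ A →
      ∃ t : ℝ, t ≠ 0 ∧ |t| < 1 / ((k : ℝ) + 1) ∧ φ + t • h ∈ A := by
    intro h hh k
    obtain ⟨B, hB⟩ : ∃ B : Set E, B = {φ | φ ∈ A ∧ volume {s : Fin 1 → ℝ |
      s ∈ Metric.ball (0 : Fin 1 → ℝ) (1 / ((k : ℝ) + 1)) ∧ φ + ∑ i, s i • (fun _ => h) i ∈ A} = 0} :=
      ⟨_, rfl⟩
    have hBm : MeasurableSet B := by
      rw [hB]
      exact hA.inter ((slice_meas (fun _ : Fin 1 => h) hA (1 / ((k : ℝ) + 1)))
        (measurableSet_singleton 0))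
    have hk0 : 0 < 1 / ((k : ℝ) + 1) := by positivity
    have hPB : P B = 0 := by
      refine fub (n := 1) (fun _ => h) (fun _ => hadm h hh) hBm hk0 fun φ hφ => ?_
      have h1 : φ ∈ A ∧ volume {s : Fin 1 → ℝ | s ∈ Metric.ball (0 : Fin 1 → ℝ)
        (1 / ((k : ℝ) + 1)) ∧ φ + ∑ i, s i • (fun _ => h) i ∈ A} = 0 := by
        rw [hB] at hφ
        exact hφ
      refine measure_mono_null ?_ h1.2
      rintro s ⟨hs1, hs2⟩
      refine ⟨hs1, ?_⟩
      rw [hB] at hs2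
      exact hs2.1
    have h2 : ∀ᵐ φ ∂P, φ ∉ B := measure_eq_zero_iff_ae_notMem.1 hPB
    filter_upwards [h2] with φ hφ hφA
    by_contra hcon
    refine hφ ?_
    rw [hB]
    refine ⟨hφA, ?_⟩
    refine measure_mono_null ?_ (measure_singleton (0 : Fin 1 → ℝ))
    rintro s ⟨hs1, hs2⟩
    by_contra hs0
    refine hcon ⟨s 0, fun h0 => hs0 ?_, ?_, ?_⟩
    · show s = 0
      funext i
      rw [Subsingleton.elim i 0]
      exact h0
    · rw [mem_ball_zero_iff] at hs1
      exact (norm_le_pi_norm s 0).trans_lt hs1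
    · simpa using hs2
  have h1 : ∀ᵐ φ ∂P, ∀ h ∈ D, ∀ k : ℕ, φ ∈ A →
      ∃ t : ℝ, t ≠ 0 ∧ |t| < 1 / ((k : ℝ) + 1) ∧ φ + t • h ∈ A := by
    rw [ae_ball_iff hD]
    intro h hh
    rw [ae_all_iff]
    exact key h hh
  filter_upwards [h1] with φ h2 h3 h hh k
  exact h2 h hh k h3

/-- a map which is nonsingular on a slice at almost every point avoids null sets -/
theorem ae_avoid {P : Measure E} [IsFiniteMeasure P] {D : Set E} (hD : D.Countable)
    (hadm : ∀ h ∈ D, Adm P h) {n : ℕ} {F : E → Fin n → ℝ} (hF : Continuous F) {G : Set E}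
    (hG : ∀ φ ∈ G, ∃ h : Fin n → E, (∀ i, h i ∈ D) ∧ ∃ δ : ℝ, 0 < δ ∧ ∀ N : Set (Fin n → ℝ),
      volume N = 0 → volume {s : Fin n → ℝ | s ∈ Metric.ball (0 : Fin n → ℝ) δ ∧
        F (φ + ∑ i, s i • h i) ∈ N} = 0) {N : Set (Fin n → ℝ)} (hN : volume N = 0) :
    ∀ᵐ φ ∂P, φ ∈ G → F φ ∉ N := by
  obtain ⟨N', hNN', hN'm, hN'0⟩ : ∃ N' : Set (Fin n → ℝ), N ⊆ N' ∧ MeasurableSet N' ∧ volume N' = 0 :=
    ⟨toMeasurable volume N, subset_toMeasurable _ _, measurableSet_toMeasurable _ _, by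
      rw [measure_toMeasurable, hN]⟩
  have : Countable D := hD.to_subtype
  have key : ∀ (h : Fin n → D) (k : ℕ), ∀ᵐ φ ∂P, ¬ (F φ ∈ N' ∧ volume {s : Fin n → ℝ |
      s ∈ Metric.ball (0 : Fin n → ℝ) (1 / ((k : ℝ) + 1)) ∧
        F (φ + ∑ i, s i • (h i : E)) ∈ N'} = 0) := by
    intro h k
    have hFm : MeasurableSet (F ⁻¹' N') := hF.measurable hN'm
    obtain ⟨B, hB⟩ : ∃ B : Set E, B = {φ | φ ∈ F ⁻¹' N' ∧ volume {s : Fin n → ℝ |
      s ∈ Metric.ball (0 : Fin n → ℝ) (1 / ((k : ℝ) + 1)) ∧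
        φ + ∑ i, s i • (fun i => (h i : E)) i ∈ F ⁻¹' N'} = 0} := ⟨_, rfl⟩
    have hBm : MeasurableSet B := by
      rw [hB]
      exact hFm.inter ((slice_meas (fun i => (h i : E)) hFm (1 / ((k : ℝ) + 1)))
        (measurableSet_singleton 0))
    have hk0 : 0 < 1 / ((k : ℝ) + 1) := by positivity
    have hPB : P B = 0 := by
      refine fub (fun i => (h i : E)) (fun i => hadm _ (h i).2) hBm hk0 fun φ hφ => ?_
      have h1 : volume {s : Fin n → ℝ |
          s ∈ Metric.ball (0 : Fin n → ℝ) (1 / ((k : ℝ) + 1)) ∧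
            φ + ∑ i, s i • (fun i => (h i : E)) i ∈ F ⁻¹' N'} = 0 := by
        rw [hB] at hφ
        exact hφ.2
      refine measure_mono_null ?_ h1
      rintro s ⟨hs1, hs2⟩
      refine ⟨hs1, ?_⟩
      rw [hB] at hs2
      exact hs2.1
    have h2 : ∀ᵐ φ ∂P, φ ∉ B := measure_eq_zero_iff_ae_notMem.1 hPB
    filter_upwards [h2] with φ hφ hφA
    refine hφ ?_
    rw [hB]
    exact hφA
  have h1 : ∀ᵐ φ ∂P, ∀ (h : Fin n → D) (k : ℕ), ¬ (F φ ∈ N' ∧ volume {s : Fin n → ℝ |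
      s ∈ Metric.ball (0 : Fin n → ℝ) (1 / ((k : ℝ) + 1)) ∧
        F (φ + ∑ i, s i • (h i : E)) ∈ N'} = 0) := by
    rw [ae_all_iff]
    intro h
    rw [ae_all_iff]
    exact key h
  filter_upwards [h1] with φ h2 hφG hmem
  obtain ⟨h, hh, δ, hδ, h3⟩ := hG φ hφG
  obtain ⟨k, hk⟩ := exists_nat_one_div_lt hδ
  refine h2 (fun i => ⟨h i, hh i⟩) k ⟨hNN' hmem, ?_⟩
  refine measure_mono_null ?_ (h3 N' hN'0)
  rintro s ⟨hs1, hs2⟩
  exact ⟨Metric.ball_subset_ball hk.le hs1, hs2⟩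

end abs

/-- a set on which `g` is expanding and whose image is null is null -/
lemma null_of_anti {n : ℕ} {g : (Fin n → ℝ) → (Fin n → ℝ)} {N S : Set (Fin n → ℝ)}
    (hN : volume N = 0) (hS : ∀ t ∈ S, g t ∈ N) (K : NNReal)
    (hK : ∀ s ∈ S, ∀ t ∈ S, dist s t ≤ K * dist (g s) (g t)) : volume S = 0 := by
  have hinj : InjOn g S := by
    intro s hs t ht hst
    have h1 := hK s hs t ht
    rw [hst, dist_self, mul_zero] at h1
    exact dist_le_zero.1 h1
  obtain ⟨f, hf⟩ : ∃ f, f = Function.invFunOn g S := ⟨_, rfl⟩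
  have hfg : ∀ t ∈ S, f (g t) = t := fun t ht => by rw [hf]; exact hinj.leftInvOn_invFunOn ht
  have hL : LipschitzOnWith K f (g '' S) := by
    refine LipschitzOnWith.of_dist_le_mul ?_
    rintro _ ⟨s, hs, rfl⟩ _ ⟨t, ht, rfl⟩
    rw [hfg s hs, hfg t ht]
    exact hK s hs t ht
  have h1 : S ⊆ f '' (g '' S) := fun t ht => ⟨g t, ⟨t, ht, rfl⟩, hfg t ht⟩
  have h2 := hL.hausdorffMeasure_image_le (d := (Fintype.card (Fin n) : ℝ)) (by positivity)
  rw [← hausdorffMeasure_pi_real] at hN ⊢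
  have h3 : Measure.hausdorffMeasure (Fintype.card (Fin n) : ℝ) (g '' S) = 0 :=
    measure_mono_null (by rintro _ ⟨t, ht, rfl⟩; exact hS t ht) hN
  rw [h3, mul_zero] at h2
  exact measure_mono_null h1 (le_antisymm h2 bot_le)

/-- near a point with an injective strict derivative the inverse images of null sets are null -/
theorem slice_null {n : ℕ} {g : (Fin n → ℝ) → (Fin n → ℝ)} {g' : (Fin n → ℝ) →L[ℝ] (Fin n → ℝ)}
    (hg : HasStrictFDerivAt g g' 0) {c : ℝ} (hc : 0 < c) (hg' : ∀ v, c * ‖v‖ ≤ ‖g' v‖) :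
    ∃ δ : ℝ, 0 < δ ∧ ∀ N : Set (Fin n → ℝ), volume N = 0 →
      volume {s : Fin n → ℝ | s ∈ Metric.ball (0 : Fin n → ℝ) δ ∧ g s ∈ N} = 0 := by
  have h1 := hg.isLittleO.def (show 0 < c / 2 by positivity)
  obtain ⟨δ, hδ, h2⟩ := Metric.eventually_nhds_iff.1 h1
  refine ⟨δ, hδ, fun N hN => ?_⟩
  refine null_of_anti (g := g) hN (fun t ht => ht.2) (Real.toNNReal (2 / c)) ?_
  rintro s ⟨hs, -⟩ t ⟨ht, -⟩
  rw [Real.coe_toNNReal _ (by positivity)]
  have h3 := @h2 (s, t) (by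
    rw [Prod.dist_eq]
    exact max_lt hs ht)
  simp only at h3
  have h4 := hg' (s - t)
  rw [dist_eq_norm, dist_eq_norm]
  have h5 : ‖g' (s - t)‖ ≤ ‖g s - g t‖ + ‖g s - g t - g' (s - t)‖ := by
    calc ‖g' (s - t)‖ = ‖(g s - g t) - (g s - g t - g' (s - t))‖ := by congr 1; abel
      _ ≤ _ := norm_sub_le _ _
  have h6 : c / 2 * ‖s - t‖ ≤ ‖g s - g t‖ := by linarith
  calc ‖s - t‖ = 2 / c * (c / 2 * ‖s - t‖) := by field_simp
    _ ≤ 2 / c * ‖g s - g t‖ := by gcongr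

end Pool.Agent.H23.RM
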