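import Pool.Agent.H23.RM.Core
import Pool.Agent.H23.RM.Meas

/-!
# Random metrics: independence of the squares and tuples of levels, almost surely
-/

set_option autoImplicit false
set_option linter.unusedSectionVars false

open Set Filter Topology MeasureTheory
open Pool.Agent.Y262.QE Pool.Agent.Y264.QR Pool.Agent.Y319.QR Q101.QG
open Pool.Agent.Q233.GLV

noncomputable section

namespace Pool.Agent.H23.RM

variable {M : Type} [MetricSpace M] [CompactSpace M] [MeasurableSpace M] [BorelSpace M]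
  {μ : Measure M} [IsFiniteMeasure μ] {H : Type} [NormedAddCommGroup H] [InnerProductSpace ℝ H]
  {i : H →L[ℝ] Lp ℝ 2 μ} {a : H →L[ℝ] H →L[ℝ] ℝ} {b : C(M, ℝ) → H →L[ℝ] H →L[ℝ] ℝ}

/-- directions near every function -/
lemma appr_of {J : Finset ℕ} {j₀ : ℕ} {D : Set C(M, ℝ)} (hDd : Dense D) {A : Set C(M, ℝ)}
    (hA : ∀ ψ ∈ A, Rel μ i a b J j₀ ψ) {φ : C(M, ℝ)}
    (hl : ∀ h ∈ D, ∀ k : ℕ, ∃ t : ℝ, t ≠ 0 ∧ |t| < 1 / ((k : ℝ) + 1) ∧ φ + t • h ∈ A) (y : C(M, ℝ)) :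
    Appr μ i a b J j₀ φ y := by
  have h1 : ∀ k : ℕ, ∃ h ∈ D, dist h y < 1 / ((k : ℝ) + 1) := by
    intro k
    obtain ⟨h, hh, hd⟩ := Metric.mem_closure_iff.1 (hDd y) (1 / ((k : ℝ) + 1)) (by positivity)
    exact ⟨h, hh, by rwa [dist_comm]⟩
  choose gs hgD hgd using h1
  choose t ht0 ht1 htA using fun k : ℕ => hl (gs k) (hgD k) k
  refine ⟨t, gs, ht0, ?_, ?_, fun m => hA _ (htA m)⟩
  · exact squeeze_zero_norm (fun k => by rw [Real.norm_eq_abs]; exact (ht1 k).le)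
      tendsto_one_div_add_atTop_nhds_zero_nat
  · rw [tendsto_iff_dist_tendsto_zero]
    exact squeeze_zero (fun _ => dist_nonneg) (fun k => (hgd k).le)
      tendsto_one_div_add_atTop_nhds_zero_nat

theorem ae_good [CompleteSpace H] (hS : Sf μ i a) (hB : IsB μ i b)
    (hA : ∀ φ : C(M, ℝ), 0 < ∫ x, Real.exp (φ x) ∂μ)
    [MeasurableSpace C(M, ℝ)] [BorelSpace C(M, ℝ)] {P : Measure C(M, ℝ)} [IsFiniteMeasure P]
    {D : Set C(M, ℝ)} (hDc : D.Countable) (hDd : Dense D) (hadm : ∀ h ∈ D, Adm P h)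
    (hsim : ∀ᵐ φ ∂P, ∀ j, 0 < Ev a (b φ) j → Sim a b φ j)
    {Fa : Set ((M → ℝ) → ℝ)} (hFam : ∀ Ω ∈ Fa, ∃ h C w, Osc μ i a b Ω h C w)
    (htot : ∀ (φ : C(M, ℝ)) (e : ℕ → H) (c : ℕ → ℝ) (J' : Finset ℕ), (∀ Ω ∈ Fa,
      ∑ j ∈ J', c j * Ω (fun x => (i (e j) x) ^ 2) = 0) →
      ∀ h : C(M, ℝ), ∑ j ∈ J', c j * kap μ i h φ (e j) = 0) (J₁ : Finset ℕ) :
    (∀ j ∈ J₁, j ≠ 0 ∧ ∀ φ, 0 < Ev a (b φ) j) → ∀ᵐ φ ∂P, φ ∈ GoodS μ i a b (insert 0 J₁) := by
  obtain ⟨hF, hb, -⟩ := forms μ i a b hS hB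
  induction J₁ using Finset.induction_on with
  | empty =>
    intro _
    refine Eventually.of_forall fun φ => ⟨fun j hj hj0 => ?_, fun e E _ c hc j hj => ?_⟩
    · simp only [Finset.mem_insert, Finset.notMem_empty, or_false] at hj
      exact absurd hj hj0
    · simp only [Finset.mem_insert, Finset.notMem_empty, or_false] at hj
      have h2 := hc 1
      simp only [insert_empty_eq, Finset.sum_singleton, pw, if_true] at h2
      have h3 : ∫ y, (1 : C(M, ℝ)) y * Real.exp (φ y) ∂μ = ∫ y, Real.exp (φ y) ∂μ := by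
        refine integral_congr_ae (Eventually.of_forall fun y => ?_)
        simp
      rw [h3] at h2
      rw [hj]
      exact (mul_eq_zero.1 h2).resolve_right (hA φ).ne'
  | insert j₀ J₁ hj₀ ih =>
    intro hJ
    have hd := ih fun j hj => hJ j (Finset.mem_insert_of_mem hj)
    have hj₀J := hJ j₀ (Finset.mem_insert_self _ _)
    have hj₀' : j₀ ∉ insert 0 J₁ := by
      rw [Finset.mem_insert, not_or]
      exact ⟨hj₀J.1, hj₀⟩
    have hposJ : ∀ j ∈ insert j₀ (insert 0 J₁), j ≠ 0 → ∀ φ, 0 < Ev a (b φ) j := by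
      intro j hj hj0
      rcases Finset.mem_insert.1 hj with h | h
      · rw [h]; exact hj₀J.2
      · rcases Finset.mem_insert.1 h with h | h
        · exact absurd h hj0
        · exact (hJ j (Finset.mem_insert_of_mem h)).2
    have hso : IsOpen {ψ : C(M, ℝ) | ∀ j ∈ insert j₀ (insert 0 J₁), j ≠ 0 → Sim a b ψ j} := by
      rw [isOpen_iff_mem_nhds]
      intro ψ hψ
      have h4 : ∀ᶠ ψ' in 𝓝 ψ, ∀ j ∈ insert j₀ (insert 0 J₁), j ≠ 0 → Sim a b ψ' j := by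
        rw [Finset.eventually_all]
        intro j hj
        by_cases hj0 : j = 0
        · exact Eventually.of_forall fun ψ h => absurd hj0 h
        · filter_upwards [sim_open hS hB (hψ j hj hj0)] with ψ' hψ' _
          exact hψ'
      exact h4
    obtain ⟨A, hAd⟩ : ∃ A : Set C(M, ℝ), A =
        {ψ | (∀ j ∈ insert j₀ (insert 0 J₁), j ≠ 0 → Sim a b ψ j) ∧
          ψ ∈ GoodS μ i a b (insert 0 J₁) ∧
          ψ ∈ (GoodS μ i a b (insert 0 (insert j₀ J₁)))ᶜ} := ⟨_, rfl⟩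
    have hAm : MeasurableSet A := by
      rw [hAd]
      exact hso.measurableSet.inter ((good_open hS hB _).measurableSet.inter
        (good_open hS hB _).measurableSet.compl)
    have hArel : ∀ ψ ∈ A, Rel μ i a b (insert 0 J₁) j₀ ψ := by
      intro ψ hψ e' E' hE'
      rw [hAd] at hψ
      obtain ⟨h2, h4, h3⟩ := hψ
      refine rel hj₀' (fun hI => h3 ⟨?_, fun e'' E'' hE'' => ?_⟩) (h4.2 e' E' hE')
      · intro j hj hj0
        rw [Finset.insert_comm] at hj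
        exact h2 j hj hj0
      · rw [Finset.insert_comm]
        exact ind_congr hS hB h2 hE' hE'' hI
    filter_upwards [hd, hsim, ae_limit hDc hadm hAm] with φ h1 h2 h3
    by_contra hcon
    have hsφ : ∀ j ∈ insert j₀ (insert 0 J₁), j ≠ 0 → Sim a b φ j := fun j hj hj0 =>
      h2 j (hposJ j hj hj0 φ)
    have hφA : φ ∈ A := by
      rw [hAd]
      exact ⟨hsφ, h1, hcon⟩
    obtain ⟨e, E, hE⟩ := tSp H a (b φ) (hF _)
    have hmm : ∀ j, Ev a (b φ) j = E j := fun j =>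
      Pool.Agent.Y592.QE.mm H a (b φ) (hF _) e E hE j
    exact pt2 hS hB hE (Finset.mem_insert_self 0 J₁) hj₀' hsφ (by rw [← hmm]; exact hj₀J.2 _)
      (ContinuousLinearMap.id ℝ C(M, ℝ)) (fun y => subset_closure ⟨y, rfl⟩) (h1.2 e E hE)
      (hArel φ hφA) (fun y => appr_of hDd hArel (h3 hφA) y) hFam (htot φ e)

/-- at a good conformal factor the tuple of levels is nonsingular on a slice -/
theorem good_slice [CompleteSpace H] (hS : Sf μ i a) (hB : IsB μ i b)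
    (hA : ∀ φ : C(M, ℝ), 0 < ∫ x, Real.exp (φ x) ∂μ) {D : Set C(M, ℝ)} (hDd : Dense D)
    {n : ℕ} {p : Fin n → ℕ} (hp : Function.Injective p) {φ : C(M, ℝ)}
    (hp0 : ∀ l, p l ≠ 0 ∧ 0 < Ev a (b φ) (p l))
    (hx : φ ∈ GoodS μ i a b (insert 0 (Finset.univ.image p))) :
    ∃ h : Fin n → C(M, ℝ), (∀ i, h i ∈ D) ∧ ∃ δ : ℝ, 0 < δ ∧ ∀ N : Set (Fin n → ℝ),
      volume N = 0 → volume {s : Fin n → ℝ | s ∈ Metric.ball (0 : Fin n → ℝ) δ ∧
        Tu μ a b p (φ + ∑ i, s i • h i) ∈ N} = 0 := by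
  obtain ⟨hF, hb, -⟩ := forms μ i a b hS hB
  obtain ⟨e, E, hE⟩ := tSp H a (b φ) (hF _)
  have hmm : ∀ j, Ev a (b φ) j = E j := fun j =>
    Pool.Agent.Y592.QE.mm H a (b φ) (hF _) e E hE j
  obtain ⟨κ, hκ⟩ := dual hS hB (hx.2 e E hE) (ContinuousLinearMap.id ℝ C(M, ℝ))
    (fun y => subset_closure ⟨y, rfl⟩)
  have hmem : ∀ l, p l ∈ insert 0 (Finset.univ.image p) := fun l =>
    Finset.mem_insert_of_mem (Finset.mem_image_of_mem p (Finset.mem_univ l))
  choose L hL using fun j => pwC hS hB φ e j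
  have hLκ0 : ∀ m, L 0 (κ (p m)) = 0 := fun m => by
    rw [hL]
    have := hκ _ (hmem m) 0 (Finset.mem_insert_self _ _)
    rw [if_neg (hp0 m).1] at this
    exact this
  have hLκ : ∀ l m, L (p l) (κ (p m)) = if m = l then 1 else 0 := fun l m => by
    rw [hL]
    have h0 := hκ _ (hmem m) _ (hmem l)
    have h1 : pw μ i φ (κ (p m)) e (p l) = if p m = p l then 1 else 0 := h0
    rw [h1]
    by_cases h : m = l
    · rw [h, if_pos rfl, if_pos rfl]
    · rw [if_neg h, if_neg fun h' => h (hp h')]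
  obtain ⟨A, hAd⟩ : ∃ A : ℝ, A = ∫ y, Real.exp (φ y) ∂μ := ⟨_, rfl⟩
  have hA0 : 0 < A := by rw [hAd]; exact hA _
  have hE0 : ∀ l, 0 < E (p l) := fun l => by rw [← hmm]; exact (hp0 l).2
  -- the derivative
  obtain ⟨Λ, hΛ⟩ : ∃ Λ : C(M, ℝ) →L[ℝ] (Fin n → ℝ), ∀ ψ l,
      Λ ψ l = A * (-(E (p l)) * L (p l) ψ) + Ev a (b φ) (p l) * L 0 ψ := by
    refine ⟨ContinuousLinearMap.pi fun l => A • (-(E (p l)) • L (p l)) + Ev a (b φ) (p l) • L 0,
      fun ψ l => ?_⟩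
    simp only [ContinuousLinearMap.coe_pi', _root_.add_apply, _root_.smul_apply, smul_eq_mul]
  have hder : HasStrictFDerivAt (Tu μ a b p) Λ φ := by
    rw [hasStrictFDerivAt_pi']
    intro l
    have h1 := strict_ev hS hB hE (hp0 l).1 (hx.1 (p l) (hmem l) (hp0 l).1) (hL (p l))
    have h2 := strict_area (μ := μ) (i := i) (φ := φ) (e := e) (hL 0)
    have h3 := h2.mul h1
    have h6 : (ContinuousLinearMap.proj l : (Fin n → ℝ) →L[ℝ] ℝ).comp Λ =
        (∫ y, Real.exp (φ y) ∂μ) • (-(E (p l)) • L (p l)) + Ev a (b φ) (p l) • L 0 := by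
      ext1 ψ
      rw [ContinuousLinearMap.comp_apply, ContinuousLinearMap.proj_apply, hΛ]
      simp only [_root_.add_apply, _root_.smul_apply, smul_eq_mul, ← hAd]
    rw [h6]
    exact h3
  have hΛκ : ∀ m l, Λ (κ (p m)) l = if m = l then -(A * E (p l)) else 0 := by
    intro m l
    rw [hΛ, hLκ, hLκ0]
    split_ifs
    · ring
    · ring
  -- constants
  obtain ⟨c, hc0, hc⟩ : ∃ c : ℝ, 0 < c ∧ ∀ l, c ≤ A * E (p l) := by
    rcases isEmpty_or_nonempty (Fin n) with h | h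
    · exact ⟨1, one_pos, fun l => (h.false l).elim⟩
    · obtain ⟨l₀, hl₀⟩ := Finite.exists_min fun l => A * E (p l)
      exact ⟨_, mul_pos hA0 (hE0 l₀), hl₀⟩
  obtain ⟨ε, hε⟩ : ∃ ε : ℝ, ε = c / (2 * ((n : ℝ) + 1) * (‖Λ‖ + 1)) := ⟨_, rfl⟩
  have hε0 : 0 < ε := by rw [hε]; positivity
  have hh : ∀ m : Fin n, ∃ h ∈ D, ‖h - κ (p m)‖ < ε := by
    intro m
    obtain ⟨h, hh, hd⟩ := Metric.mem_closure_iff.1 (hDd (κ (p m))) ε hε0
    exact ⟨h, hh, by rwa [dist_comm, dist_eq_norm] at hd⟩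
  choose h hhD hhε using hh
  obtain ⟨T, hT⟩ : ∃ T : (Fin n → ℝ) →L[ℝ] C(M, ℝ), ∀ s, T s = ∑ m, s m • h m := by
    refine ⟨∑ m, (ContinuousLinearMap.proj m : (Fin n → ℝ) →L[ℝ] ℝ).smulRight (h m), fun s => ?_⟩
    rw [ContinuousLinearMap.sum_apply]
    rfl
  have hbase : HasStrictFDerivAt (fun s : Fin n → ℝ => φ + T s) T 0 :=
    (T.hasStrictFDerivAt).const_add φ
  have hG : HasStrictFDerivAt (fun s : Fin n → ℝ => Tu μ a b p (φ + T s)) (Λ.comp T) 0 := by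
    have h4 : HasStrictFDerivAt (Tu μ a b p) Λ (φ + T 0) := by
      rw [map_zero, add_zero]
      exact hder
    exact h4.comp (0 : Fin n → ℝ) hbase
  have hlow : ∀ v : Fin n → ℝ, c / 2 * ‖v‖ ≤ ‖(Λ.comp T) v‖ := by
    intro v
    obtain ⟨w, hw⟩ : ∃ w : Fin n → ℝ, w = Λ (∑ m, v m • κ (p m)) := ⟨_, rfl⟩
    have hwl : ∀ l, w l = -(A * E (p l)) * v l := by
      intro l
      rw [hw, map_sum, Finset.sum_apply]
      simp only [map_smul, Pi.smul_apply, smul_eq_mul, hΛκ]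
      rw [Finset.sum_eq_single l (fun m _ hm => by rw [if_neg hm, mul_zero])
        (fun hl => absurd (Finset.mem_univ l) hl), if_pos rfl]
      ring
    have hw1 : c * ‖v‖ ≤ ‖w‖ := by
      have h2 : ∀ l, ‖v l‖ ≤ ‖w‖ / c := by
        intro l
        rw [le_div_iff₀ hc0]
        have h3 := norm_le_pi_norm w l
        rw [hwl, norm_mul, norm_neg, Real.norm_of_nonneg (mul_nonneg hA0.le (hE0 l).le)] at h3
        calc ‖v l‖ * c ≤ ‖v l‖ * (A * E (p l)) := by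
              have := hc l
              gcongr
          _ = A * E (p l) * ‖v l‖ := by ring
          _ ≤ ‖w‖ := h3
      have h3 : ‖v‖ ≤ ‖w‖ / c := (pi_norm_le_iff_of_nonneg (by positivity)).2 h2
      rw [le_div_iff₀ hc0] at h3
      linarith
    have hw2 : ‖w - (Λ.comp T) v‖ ≤ c / 2 * ‖v‖ := by
      have h3 : w - (Λ.comp T) v = Λ (∑ m, v m • (κ (p m) - h m)) := by
        rw [hw, ContinuousLinearMap.comp_apply, hT, ← map_sub, ← Finset.sum_sub_distrib]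
        congr 1
        refine Finset.sum_congr rfl fun m _ => ?_
        rw [smul_sub]
      rw [h3]
      refine (Λ.le_opNorm _).trans ?_
      have h4 : ‖∑ m, v m • (κ (p m) - h m)‖ ≤ (n : ℝ) * (‖v‖ * ε) := by
        refine (norm_sum_le _ _).trans ?_
        have h5 : ∀ m ∈ (Finset.univ : Finset (Fin n)), ‖v m • (κ (p m) - h m)‖ ≤ ‖v‖ * ε := by
          intro m _
          rw [norm_smul]
          have h6 : ‖κ (p m) - h m‖ ≤ ε := by rw [norm_sub_rev]; exact (hhε m).le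
          have h7 := norm_le_pi_norm v m
          gcongr
        refine (Finset.sum_le_card_nsmul _ _ _ h5).trans ?_
        rw [Finset.card_univ, Fintype.card_fin, nsmul_eq_mul]
      calc ‖Λ‖ * ‖∑ m, v m • (κ (p m) - h m)‖ ≤ (‖Λ‖ + 1) * (((n : ℝ) + 1) * (‖v‖ * ε)) := by
            have h8 : (n : ℝ) * (‖v‖ * ε) ≤ ((n : ℝ) + 1) * (‖v‖ * ε) := by
              have : 0 ≤ ‖v‖ * ε := by positivity
              nlinarith
            have h9 : ‖Λ‖ ≤ ‖Λ‖ + 1 := by linarith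
            exact mul_le_mul h9 (h4.trans h8) (norm_nonneg _) (by positivity)
        _ = c / 2 * ‖v‖ := by
            rw [hε]
            field_simp
    have h3 : ‖w‖ ≤ ‖(Λ.comp T) v‖ + ‖w - (Λ.comp T) v‖ := by
      calc ‖w‖ = ‖(Λ.comp T) v + (w - (Λ.comp T) v)‖ := by congr 1; abel
        _ ≤ _ := norm_add_le _ _
    linarith
  obtain ⟨δ, hδ, hnull⟩ := slice_null hG (half_pos hc0) hlow
  refine ⟨h, hhD, δ, hδ, fun N hN => ?_⟩
  have h1 := hnull N hN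
  simp only [hT] at h1
  exact h1

/-- **tuples of levels of random conformal factors avoid null sets** -/
theorem ae_tuple [CompleteSpace H] (hS : Sf μ i a) (hB : IsB μ i b)
    (hA : ∀ φ : C(M, ℝ), 0 < ∫ x, Real.exp (φ x) ∂μ)
    [MeasurableSpace C(M, ℝ)] [BorelSpace C(M, ℝ)] {P : Measure C(M, ℝ)} [IsFiniteMeasure P]
    {D : Set C(M, ℝ)} (hDc : D.Countable) (hDd : Dense D) (hadm : ∀ h ∈ D, Adm P h)
    {n : ℕ} {p : Fin n → ℕ} (hp : Function.Injective p)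
    (hp0 : ∀ l, p l ≠ 0 ∧ ∀ φ, 0 < Ev a (b φ) (p l))
    (hgood : ∀ᵐ φ ∂P, φ ∈ GoodS μ i a b (insert 0 (Finset.univ.image p)))
    {N : Set (Fin n → ℝ)} (hN : volume N = 0) :
    ∀ᵐ φ ∂P, Tu μ a b p φ ∉ N := by
  have h1 := ae_avoid hDc hadm (tu_cont hS hB p)
    (G := GoodS μ i a b (insert 0 (Finset.univ.image p)))
    (fun φ hφ => good_slice hS hB hA hDd hp (fun l => ⟨(hp0 l).1, (hp0 l).2 φ⟩) hφ) hN
  filter_upwards [h1, hgood] with φ h2 h3
  exact h2 h3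

end Pool.Agent.H23.RM
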