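import Mathlib

/-!
# The zero set of a nonzero polynomial in several real variables is a null set
-/

set_option autoImplicit false

open Set Filter Topology MeasureTheory

namespace Pool.Agent.H23.RM

theorem mv_null (n : ℕ) : ∀ f : MvPolynomial (Fin n) ℝ, f ≠ 0 →
    volume {x : Fin n → ℝ | MvPolynomial.eval x f = 0} = 0 := by
  induction n with
  | zero =>
    intro f hf
    have h : {x : Fin 0 → ℝ | MvPolynomial.eval x f = 0} = ∅ := by
      ext x
      simp only [Set.mem_ofPred_eq, Set.mem_empty_iff_false, iff_false]
      intro h0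
      apply hf
      rw [MvPolynomial.eq_C_of_isEmpty f] at h0 ⊢
      simp only [MvPolynomial.eval_C] at h0
      rw [h0, map_zero]
    rw [h]
    exact measure_empty
  | succ n ih =>
    intro f hf
    set q := MvPolynomial.finSuccEquiv ℝ n f with hq
    have hq0 : q ≠ 0 := by
      intro h
      apply hf
      have := (MvPolynomial.finSuccEquiv ℝ n).injective (a₁ := f) (a₂ := 0)
      apply this
      rw [map_zero]
      exact h
    have hlc : q.leadingCoeff ≠ 0 := Polynomial.leadingCoeff_ne_zero.2 hq0
    have h1 := ih _ hlc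
    have hmp := MeasureTheory.volume_preserving_piFinSuccAbove (fun _ : Fin (n + 1) => ℝ) 0
    set e := MeasurableEquiv.piFinSuccAbove (fun _ : Fin (n + 1) => ℝ) 0 with he
    have hcont : Measurable fun x : Fin (n + 1) → ℝ => MvPolynomial.eval x f := by
      have := MvPolynomial.continuous_eval f
      exact this.measurable
    have hmeas : MeasurableSet {x : Fin (n + 1) → ℝ | MvPolynomial.eval x f = 0} :=
      hcont (measurableSet_singleton 0)
    set T : Set (ℝ × (Fin n → ℝ)) := {z | MvPolynomial.eval (Fin.cons z.1 z.2) f = 0} with hT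
    have hpre : {x : Fin (n + 1) → ℝ | MvPolynomial.eval x f = 0} = e ⁻¹' T := by
      ext x
      simp only [Set.mem_ofPred_eq, Set.mem_preimage, hT]
      have : (Fin.cons (e x).1 (e x).2 : Fin (n + 1) → ℝ) = x := by
        rw [he]
        ext i
        refine Fin.cases ?_ (fun j => ?_) i
        · simp [MeasurableEquiv.piFinSuccAbove]
        · simp [MeasurableEquiv.piFinSuccAbove]
          rfl
      rw [this]
    have hTm : MeasurableSet T := by
      have h2 : T = e.symm ⁻¹' {x : Fin (n + 1) → ℝ | MvPolynomial.eval x f = 0} := by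
        rw [hpre, ← Set.preimage_comp]
        simp
      rw [h2]
      exact e.symm.measurable hmeas
    rw [hpre, hmp.measure_preimage hTm.nullMeasurableSet]
    change (volume.prod volume) T = 0
    have hsw : (volume.prod volume) (Prod.swap ⁻¹' T) = (volume.prod volume) T :=
      (Measure.measurePreserving_swap (μ := (volume : Measure (Fin n → ℝ))) (ν := (volume : Measure ℝ))).measure_preimage
        hTm.nullMeasurableSet
    rw [← hsw, Measure.measure_prod_null (measurable_swap hTm)]
    have h3 : ∀ᵐ y : Fin n → ℝ, MvPolynomial.eval y q.leadingCoeff ≠ 0 := by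
      rw [ae_iff]
      simpa using h1
    filter_upwards [h3] with y hy
    have h4 : (Prod.mk y ⁻¹' (Prod.swap ⁻¹' T) : Set ℝ) = {t : ℝ | (q.map (MvPolynomial.eval y)).eval t = 0} := by
      ext t
      simp only [Set.mem_preimage, Prod.swap_prod_mk, hT, Set.mem_ofPred_eq]
      rw [hq, MvPolynomial.eval_eq_eval_mv_eval']
    rw [h4]
    have h5 : q.map (MvPolynomial.eval y) ≠ 0 := by
      intro h0
      apply hy
      have h6 := congrArg (fun r => r.coeff q.natDegree) h0
      simp only [Polynomial.coeff_map, Polynomial.coeff_zero] at h6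
      exact h6
    have h7 : {t : ℝ | (q.map (MvPolynomial.eval y)).eval t = 0}.Finite := by
      have h8 := (q.map (MvPolynomial.eval y)).rootSet_finite ℝ
      refine h8.subset fun t ht => ?_
      rw [Polynomial.mem_rootSet]
      refine ⟨h5, ?_⟩
      simpa using ht
    exact h7.measure_zero _

theorem mv_null' (K : Subfield ℝ) {n : ℕ} (P : MvPolynomial (Fin n) K) (hP : P ≠ 0) :
    volume {s : Fin n → ℝ | MvPolynomial.aeval s P = 0} = 0 := by
  have h1 : MvPolynomial.map (algebraMap K ℝ) P ≠ 0 := by
    intro h
    exact hP (MvPolynomial.map_injective _ (algebraMap K ℝ).injective (by rw [h, map_zero]))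
  have h2 := mv_null n _ h1
  have h3 : {s : Fin n → ℝ | MvPolynomial.aeval s P = 0} =
      {s : Fin n → ℝ | MvPolynomial.eval s (MvPolynomial.map (algebraMap K ℝ) P) = 0} := by
    ext s
    simp only [mem_setOf_eq, MvPolynomial.aeval_def, MvPolynomial.eval_map]
  rw [h3]
  exact h2

/-- inverse images of null sets under the difference map are null -/
theorem diff_null {n : ℕ} {N : Set (Fin n → ℝ)} (hN : volume N = 0) :
    volume {z : Fin (n + 1) → ℝ | (fun l : Fin n => z l.succ - z 0) ∈ N} = 0 := by
  obtain ⟨L, hL⟩ : ∃ L : (Fin (n + 1) → ℝ) →ₗ[ℝ] (Fin n → ℝ), ∀ z l, L z l = z l.succ - z 0 := by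
    refine ⟨{ toFun := fun z l => z l.succ - z 0
              map_add' := fun z w => ?_
              map_smul' := fun c z => ?_ }, fun z l => rfl⟩
    · funext l
      simp only [Pi.add_apply]
      ring
    · funext l
      simp only [Pi.smul_apply, smul_eq_mul, RingHom.id_apply]
      ring
  have hsurj : Function.Surjective L := by
    intro w
    refine ⟨Fin.cons 0 w, ?_⟩
    funext l
    rw [hL]
    simp
  obtain ⟨N', hNN', hN'm, hN'0⟩ : ∃ N' : Set (Fin n → ℝ), N ⊆ N' ∧ MeasurableSet N' ∧ volume N' = 0 :=
    ⟨toMeasurable volume N, subset_toMeasurable _ _, measurableSet_toMeasurable _ _, by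
      rw [measure_toMeasurable, hN]⟩
  have h1 := (ae_comp_linearMap_mem_iff L volume volume hsurj hN'm.compl).2
    (measure_eq_zero_iff_ae_notMem.1 hN'0)
  refine measure_mono_null ?_ (ae_iff.1 h1)
  intro z hz
  simp only [mem_setOf_eq, mem_compl_iff, not_not]
  refine hNN' ?_
  have h2 : L z = fun l : Fin n => z l.succ - z 0 := funext fun l => hL z l
  rw [h2]
  exact hz

end Pool.Agent.H23.RM
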