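import Pool.Graph.R_pool_sql_team_seeded_3997aac3.Q233.GLV.GTop2

/-!
# Random metrics: the derivative of a simple eigenvector along a sequence of changing directions
-/

set_option autoImplicit false

open Set Filter Topology
open Pool.Agent.Y262.QE
open Q101.QG (EV)
open Pool.Agent.Q233.GLV

noncomputable section

namespace Pool.Agent.H23.RM

variable {H : Type} [NormedAddCommGroup H] [InnerProductSpace ℝ H]
  {a b : H →L[ℝ] H →L[ℝ] ℝ} {e : ℕ → H} {E : ℕ → ℝ}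


/-- the difference quotients of a simple eigenvector -/
theorem quot2 (hF : Fm a b) (hE : Eg a b e E) {j : ℕ} {C : ℝ} (hC0 : 0 < C)
    (hC : ∀ (g : H) (ε : ℝ), 0 ≤ ε → (∀ ψ, |a g ψ - E j * b g ψ| ≤ ε * ‖ψ‖) →
      ‖g‖ ≤ C * (ε + |b g (e j)|)) {t : ℕ → ℝ} (ht : Tendsto t atTop (𝓝 0)) (ht0 : ∀ m, t m ≠ 0)
    {bs : ℕ → H →L[ℝ] H →L[ℝ] ℝ} (k : H →L[ℝ] H →L[ℝ] ℝ) {R : ℝ} (hR0 : 0 ≤ R)
    {η : ℕ → ℝ} (hη : Tendsto η atTop (𝓝 0)) (hη0 : ∀ m, 0 ≤ η m) (hη1 : ∀ m, η m ≤ R)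
    (hR : ∀ m u w, |bs m u w - b u w - t m * k u w| ≤ |t m| * η m * ‖u‖ * ‖w‖) {Es : ℕ → ℝ}
    {vs : ℕ → H} (hv : ∀ m, EV a (bs m) (Es m) (vs m)) (hvl : Tendsto vs atTop (𝓝 (e j)))
    {s : H} {ε₀ : ℝ} (hε₀ : 0 ≤ ε₀)
    (hs1 : ∀ ψ, |E j * (k (e j) ψ - k (e j) (e j) * b (e j) ψ) - (a s ψ - E j * b s ψ)| ≤
      ε₀ * ‖ψ‖) (hs2 : |2 * b s (e j) + k (e j) (e j)| ≤ ε₀) {ε₁ : ℝ} (hε₁ : 0 < ε₁) :
    ∀ᶠ m in atTop, ‖(t m)⁻¹ • (vs m - e j) - s‖ ≤ C * (2 * ε₀) + ε₁ := by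
  have hjj : b (e j) (e j) = 1 := by rw [hE.orth, if_pos rfl]
  obtain ⟨v, hvdef⟩ : ∃ v : H, v = e j := ⟨_, rfl⟩
  obtain ⟨lam, hlam⟩ : ∃ lam : ℝ, lam = E j := ⟨_, rfl⟩
  rw [← hvdef] at hvl hs1 hs2 hjj hC ⊢
  rw [← hlam] at hs1 hC
  have heig : ∀ w, a v w = lam * b v w := fun w => by rw [hvdef, hlam]; exact hE.eig j w
  have hta : Tendsto (fun m => |t m|) atTop (𝓝 0) := by
    have := ht.abs
    rwa [abs_zero] at this
  have ht2 : Tendsto (fun m => (t m) ^ 2) atTop (𝓝 0) := by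
    have := ht.pow 2
    simpa using this
  have hvn : Tendsto (fun m => ‖vs m‖) atTop (𝓝 ‖v‖) := hvl.norm
  have hvd : Tendsto (fun m => ‖vs m - v‖) atTop (𝓝 0) := tendsto_iff_norm_sub_tendsto_zero.1 hvl
  -- the difference quotient of the forms
  have hD : ∀ m u w, |(t m)⁻¹ * (bs m u w - b u w) - k u w| ≤ η m * ‖u‖ * ‖w‖ := by
    intro m u w
    have h1 : (t m)⁻¹ * (bs m u w - b u w) - k u w =
        (t m)⁻¹ * (bs m u w - b u w - t m * k u w) := by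
      have := ht0 m
      field_simp
    rw [h1, abs_mul, abs_inv]
    have h2 := abs_pos.2 (ht0 m)
    rw [inv_mul_le_iff₀ h2]
    calc |bs m u w - b u w - t m * k u w| ≤ |t m| * η m * ‖u‖ * ‖w‖ := hR m u w
      _ = |t m| * (η m * ‖u‖ * ‖w‖) := by ring
  have hq : ∀ m u w, |bs m u w - b u w| ≤ (‖k‖ * |t m| + η m * |t m|) * ‖u‖ * ‖w‖ := by
    intro m u w
    have h1 : |k u w| ≤ ‖k‖ * ‖u‖ * ‖w‖ := k.le_opNorm₂ u w
    calc |bs m u w - b u w| = |(bs m u w - b u w - t m * k u w) + t m * k u w| := by ring_nf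
      _ ≤ |bs m u w - b u w - t m * k u w| + |t m * k u w| := abs_add_le _ _
      _ ≤ |t m| * η m * ‖u‖ * ‖w‖ + |t m| * (‖k‖ * ‖u‖ * ‖w‖) := by
        rw [abs_mul]
        exact add_le_add (hR m u w) (mul_le_mul_of_nonneg_left h1 (abs_nonneg _))
      _ = _ := by ring
  obtain ⟨q, hqd⟩ : ∃ q : ℕ → ℝ, q = fun m => ‖k‖ * |t m| + η m * |t m| := ⟨_, rfl⟩
  have hq0 : Tendsto q atTop (𝓝 0) := by
    rw [hqd]
    have := (hta.const_mul ‖k‖).add (hη.mul hta)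
    simpa using this
  have hqn : ∀ m, 0 ≤ q m := fun m => by
    rw [hqd]
    have := hη0 m
    positivity
  have hq' : ∀ m u w, |bs m u w - b u w| ≤ q m * ‖u‖ * ‖w‖ := fun m u w => by
    rw [hqd]; exact hq m u w
  -- `b m (v m) v → 1`
  have hbv : Tendsto (fun m => bs m (vs m) v) atTop (𝓝 1) := by
    have h1 : Tendsto (fun m => b (vs m) v) atTop (𝓝 1) := by
      have h2 : Continuous fun x : H => b x v := by fun_prop
      have := (h2.tendsto v).comp hvl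
      rwa [hjj] at this
    have h2 : Tendsto (fun m => bs m (vs m) v - b (vs m) v) atTop (𝓝 0) := by
      have h3 : Tendsto (fun m => q m * ‖vs m‖ * ‖v‖) atTop (𝓝 0) := by
        have := (hq0.mul hvn).mul_const ‖v‖
        simpa using this
      exact squeeze_zero_norm (fun m => hq' m _ _) h3
    have := h2.add h1
    simpa using this
  -- the derivative of the eigenvalue
  have hkv : Tendsto (fun m => (t m)⁻¹ * (bs m (vs m) v - b (vs m) v)) atTop (𝓝 (k v v)) := by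
    have h1 : Tendsto (fun m => k (vs m) v) atTop (𝓝 (k v v)) := by
      have h2 : Continuous fun x : H => k x v := by fun_prop
      exact (h2.tendsto v).comp hvl
    have h2 : Tendsto (fun m => (t m)⁻¹ * (bs m (vs m) v - b (vs m) v) - k (vs m) v) atTop
        (𝓝 0) := by
      have h3 : Tendsto (fun m => η m * ‖vs m‖ * ‖v‖) atTop (𝓝 0) := by
        have := (hη.mul hvn).mul_const ‖v‖
        simpa using this
      exact squeeze_zero_norm (fun m => hD m _ _) h3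
    have := h2.add h1
    simpa using this
  obtain ⟨d, hd⟩ : ∃ d : ℕ → ℝ, d = fun m => (t m)⁻¹ * (Es m - lam) := ⟨_, rfl⟩
  have hdl : Tendsto d atTop (𝓝 (-(lam * k v v))) := by
    have h1 : Tendsto (fun m => -(lam * ((t m)⁻¹ * (bs m (vs m) v - b (vs m) v))) /
        bs m (vs m) v) atTop (𝓝 (-(lam * k v v) / 1)) :=
      ((hkv.const_mul lam).neg).div hbv one_ne_zero
    rw [div_one] at h1
    refine h1.congr' ?_
    have h2 : ∀ᶠ m in atTop, 0 < bs m (vs m) v := hbv.eventually_const_lt one_pos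
    filter_upwards [h2] with m h2
    have h3 : Es m * bs m (vs m) v = lam * b (vs m) v := by
      rw [← (hv m).1 v, hF.sa, heig, hF.sb]
    rw [div_eq_iff h2.ne', hd]
    simp only
    have h4 : (t m)⁻¹ * (Es m - lam) * bs m (vs m) v =
        (t m)⁻¹ * (Es m * bs m (vs m) v) - (t m)⁻¹ * (lam * bs m (vs m) v) := by ring
    rw [h4, h3]
    ring
  -- the main identity
  have hmain : ∀ m ψ, (t m)⁻¹ * (a (vs m) ψ - lam * b (vs m) ψ) =
      d m * bs m (vs m) ψ + lam * ((t m)⁻¹ * (bs m (vs m) ψ - b (vs m) ψ)) := by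
    intro m ψ
    rw [(hv m).1 ψ, hd]
    ring
  -- the norm of the difference
  obtain ⟨V, hV⟩ : ∃ V : ℝ, V = ‖v‖ + 1 := ⟨_, rfl⟩
  have hV0 : 0 < V := by rw [hV]; positivity
  have ev1 : ∀ᶠ m in atTop, ‖vs m‖ ≤ V := by
    filter_upwards [hvn.eventually_lt_const (show ‖v‖ < V by rw [hV]; linarith)] with m h
    exact h.le
  have ev2 : ∀ᶠ m in atTop, |t m| ≤ 1 := by
    filter_upwards [hta.eventually_lt_const one_pos] with m h
    exact h.le
  obtain ⟨Dm, hDm⟩ : ∃ Dm : ℝ, Dm = |lam * k v v| + 1 := ⟨_, rfl⟩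
  have ev3 : ∀ᶠ m in atTop, |d m| ≤ Dm := by
    have h1 := hdl.abs
    rw [abs_neg] at h1
    filter_upwards [h1.eventually_lt_const (show |lam * k v v| < Dm by rw [hDm]; linarith)]
      with m h
    exact h.le
  have hDm0 : 0 ≤ Dm := by rw [hDm]; positivity
  have ev4 : ∀ᶠ m in atTop, q m ≤ 1 := by
    filter_upwards [hq0.eventually_lt_const one_pos] with m h
    exact h.le
  obtain ⟨K₁, hK₁⟩ : ∃ K₁ : ℝ, K₁ = (Dm * (‖b‖ + 1) + |lam| * (‖k‖ + R)) * V := ⟨_, rfl⟩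
  have hK₁0 : 0 ≤ K₁ := by rw [hK₁]; positivity
  have hw1 : ∀ᶠ m in atTop, ‖vs m - b (vs m) v • v‖ ≤ C * (K₁ * |t m|) := by
    filter_upwards [ev1, ev2, ev3, ev4] with m h1 h2 h3 h4
    have e0 : b (vs m - b (vs m) v • v) v = 0 := by
      rw [map_sub, map_smul, _root_.sub_apply, _root_.smul_apply, smul_eq_mul, hjj]
      ring
    have e1 := hC (vs m - b (vs m) v • v) (K₁ * |t m|) (by positivity) (fun ψ => by
      have e2 : a (vs m - b (vs m) v • v) ψ - lam * b (vs m - b (vs m) v • v) ψ =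
          t m * ((t m)⁻¹ * (a (vs m) ψ - lam * b (vs m) ψ)) := by
        simp only [map_sub, map_smul, _root_.sub_apply, _root_.smul_apply, smul_eq_mul, heig]
        have := ht0 m
        field_simp
        ring
      rw [e2, hmain, abs_mul]
      have e3 : |bs m (vs m) ψ| ≤ (‖b‖ + 1) * (V * ‖ψ‖) := by
        have e4 : |b (vs m) ψ| ≤ ‖b‖ * ‖vs m‖ * ‖ψ‖ := b.le_opNorm₂ (vs m) ψ
        calc |bs m (vs m) ψ| = |(bs m (vs m) ψ - b (vs m) ψ) + b (vs m) ψ| := by ring_nf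
          _ ≤ |bs m (vs m) ψ - b (vs m) ψ| + |b (vs m) ψ| := abs_add_le _ _
          _ ≤ q m * ‖vs m‖ * ‖ψ‖ + ‖b‖ * ‖vs m‖ * ‖ψ‖ := add_le_add (hq' m _ _) e4
          _ ≤ 1 * V * ‖ψ‖ + ‖b‖ * V * ‖ψ‖ := by gcongr
          _ = _ := by ring
      have e5 : |(t m)⁻¹ * (bs m (vs m) ψ - b (vs m) ψ)| ≤ (‖k‖ + R) * (V * ‖ψ‖) := by
        have e6 : |k (vs m) ψ| ≤ ‖k‖ * ‖vs m‖ * ‖ψ‖ := k.le_opNorm₂ (vs m) ψ
        calc |(t m)⁻¹ * (bs m (vs m) ψ - b (vs m) ψ)| =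
            |((t m)⁻¹ * (bs m (vs m) ψ - b (vs m) ψ) - k (vs m) ψ) + k (vs m) ψ| := by ring_nf
          _ ≤ |(t m)⁻¹ * (bs m (vs m) ψ - b (vs m) ψ) - k (vs m) ψ| + |k (vs m) ψ| :=
            abs_add_le _ _
          _ ≤ η m * ‖vs m‖ * ‖ψ‖ + ‖k‖ * ‖vs m‖ * ‖ψ‖ := add_le_add (hD m _ _) e6
          _ ≤ R * V * ‖ψ‖ + ‖k‖ * V * ‖ψ‖ := by
            have := hη1 m
            gcongr
          _ = _ := by ring
      calc |t m| * |d m * bs m (vs m) ψ + lam * ((t m)⁻¹ * (bs m (vs m) ψ - b (vs m) ψ))| ≤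
          |t m| * (|d m * bs m (vs m) ψ| +
            |lam * ((t m)⁻¹ * (bs m (vs m) ψ - b (vs m) ψ))|) := by
            gcongr
            exact abs_add_le _ _
        _ = |t m| * (|d m| * |bs m (vs m) ψ| +
            |lam| * |(t m)⁻¹ * (bs m (vs m) ψ - b (vs m) ψ)|) := by rw [abs_mul, abs_mul lam]
        _ ≤ |t m| * (Dm * ((‖b‖ + 1) * (V * ‖ψ‖)) + |lam| * ((‖k‖ + R) * (V * ‖ψ‖))) := by
            gcongr
        _ = K₁ * |t m| * ‖ψ‖ := by rw [hK₁]; ring)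
    rwa [e0, abs_zero, add_zero] at e1
  obtain ⟨K₂, hK₂⟩ : ∃ K₂ : ℝ, K₂ = ‖b‖ * (C * K₁) ^ 2 + (‖k‖ + R) * V ^ 2 := ⟨_, rfl⟩
  have hK₂0 : 0 ≤ K₂ := by rw [hK₂]; positivity
  have hα1 : ∀ᶠ m in atTop, |b (vs m) v - 1| ≤ K₂ * |t m| := by
    have hpos : ∀ᶠ m in atTop, 0 < b (vs m) v := by
      have h2 : Continuous fun x : H => b x v := by fun_prop
      have := (h2.tendsto v).comp hvl
      rw [hjj] at this
      exact this.eventually_const_lt one_pos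
    filter_upwards [ev1, ev2, hw1, hpos] with m h1 h2 h3 h4
    have e1 := near2 hE hF (hq' m) (hv m) (j := j)
    rw [← hvdef] at e1
    have e2 : |b (vs m) v - 1| ≤ |(b (vs m) v) ^ 2 - 1| := by
      have h6 : (b (vs m) v) ^ 2 - 1 = (b (vs m) v - 1) * (b (vs m) v + 1) := by ring
      rw [h6, abs_mul, abs_of_pos (by linarith : 0 < b (vs m) v + 1)]
      nlinarith [abs_nonneg (b (vs m) v - 1)]
    refine e2.trans (e1.trans ?_)
    have e3 : q m ≤ (‖k‖ + R) * |t m| := by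
      rw [hqd]
      simp only
      have := mul_le_mul_of_nonneg_right (hη1 m) (abs_nonneg (t m))
      nlinarith
    have e4 : ‖vs m - b (vs m) v • v‖ ^ 2 ≤ (C * K₁) ^ 2 * |t m| := by
      calc ‖vs m - b (vs m) v • v‖ ^ 2 ≤ (C * (K₁ * |t m|)) ^ 2 := by gcongr
        _ = (C * K₁) ^ 2 * (|t m| * |t m|) := by ring
        _ ≤ (C * K₁) ^ 2 * (|t m| * 1) := by gcongr
        _ = _ := by ring
    calc ‖b‖ * ‖vs m - b (vs m) v • v‖ ^ 2 + q m * ‖vs m‖ ^ 2 ≤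
        ‖b‖ * ((C * K₁) ^ 2 * |t m|) + (‖k‖ + R) * |t m| * V ^ 2 := by gcongr
      _ = K₂ * |t m| := by rw [hK₂]; ring
  obtain ⟨K, hK⟩ : ∃ K : ℝ, K = C * K₁ + K₂ * ‖v‖ := ⟨_, rfl⟩
  have hK0 : 0 ≤ K := by rw [hK]; positivity
  have hlip : ∀ᶠ m in atTop, ‖vs m - v‖ ≤ K * |t m| := by
    filter_upwards [hw1, hα1] with m h1 h2
    have e1 : vs m - v = (vs m - b (vs m) v • v) + (b (vs m) v - 1) • v := by
      rw [sub_smul, one_smul]; abel
    rw [e1]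
    refine (norm_add_le _ _).trans ?_
    rw [norm_smul, Real.norm_eq_abs]
    calc ‖vs m - b (vs m) v • v‖ + |b (vs m) v - 1| * ‖v‖ ≤ C * (K₁ * |t m|) +
          K₂ * |t m| * ‖v‖ := by gcongr
      _ = _ := by rw [hK]; ring
  -- the normalization
  have hnorm : Tendsto (fun m => (t m)⁻¹ * b (vs m - v) v) atTop (𝓝 (-(k v v) / 2)) := by
    have e1 : ∀ m, (t m)⁻¹ * b (vs m - v) v = (-((t m)⁻¹ * (bs m (vs m) (vs m) -
        b (vs m) (vs m))) - (t m)⁻¹ * b (vs m - v) (vs m - v)) / 2 := by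
      intro m
      rw [(hv m).2]
      simp only [map_sub, _root_.sub_apply, hF.sb v (vs m), hjj]
      ring
    have h1 : Tendsto (fun m => (t m)⁻¹ * (bs m (vs m) (vs m) - b (vs m) (vs m))) atTop
        (𝓝 (k v v)) := by
      have h1 : Tendsto (fun m => k (vs m) (vs m)) atTop (𝓝 (k v v)) := by
        have h2 : Continuous fun x : H => k x x := by fun_prop
        exact (h2.tendsto v).comp hvl
      have h2 : Tendsto (fun m => (t m)⁻¹ * (bs m (vs m) (vs m) - b (vs m) (vs m)) -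
          k (vs m) (vs m)) atTop (𝓝 0) := by
        have h3 : Tendsto (fun m => η m * ‖vs m‖ * ‖vs m‖) atTop (𝓝 0) := by
          have := (hη.mul hvn).mul hvn
          simpa using this
        exact squeeze_zero_norm (fun m => hD m _ _) h3
      have := h2.add h1
      simpa using this
    have h2 : Tendsto (fun m => (t m)⁻¹ * b (vs m - v) (vs m - v)) atTop (𝓝 0) := by
      have h3 : Tendsto (fun m => ‖b‖ * K ^ 2 * |t m|) atTop (𝓝 0) := by
        have := hta.const_mul (‖b‖ * K ^ 2)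
        simpa using this
      refine squeeze_zero_norm' ?_ h3
      filter_upwards [hlip] with m h4
      have h5 : |b (vs m - v) (vs m - v)| ≤ ‖b‖ * ‖vs m - v‖ * ‖vs m - v‖ := b.le_opNorm₂ _ _
      rw [norm_mul, norm_inv, Real.norm_eq_abs, Real.norm_eq_abs,
        inv_mul_le_iff₀ (abs_pos.2 (ht0 m))]
      calc |b (vs m - v) (vs m - v)| ≤ ‖b‖ * ‖vs m - v‖ * ‖vs m - v‖ := h5
        _ ≤ ‖b‖ * (K * |t m|) * (K * |t m|) := by gcongr
        _ = _ := by ring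
    have h3 := ((h1.neg).sub h2).div_const 2
    rw [sub_zero] at h3
    exact h3.congr fun m => (e1 m).symm
  -- the residual
  obtain ⟨ρ, hρ⟩ : ∃ ρ : ℕ → ℝ, ρ = fun m => |d m + lam * k v v| * ((‖b‖ + q m) * ‖vs m‖) +
      |lam * k v v| * (q m * ‖vs m‖ + ‖b‖ * ‖vs m - v‖) +
      |lam| * (η m * ‖vs m‖ + ‖k‖ * ‖vs m - v‖) := ⟨_, rfl⟩
  have hρ0 : Tendsto ρ atTop (𝓝 0) := by
    have h1 : Tendsto (fun m => |d m + lam * k v v|) atTop (𝓝 0) := by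
      have := (hdl.add_const (lam * k v v)).abs
      rwa [neg_add_cancel, abs_zero] at this
    have h2 := (h1.mul ((hq0.const_add ‖b‖).mul hvn)).add
      ((((hq0.mul hvn).add (hvd.const_mul ‖b‖))).const_mul |lam * k v v|)
    have h3 := h2.add ((((hη.mul hvn).add (hvd.const_mul ‖k‖))).const_mul |lam|)
    rw [hρ]
    simpa using h3
  have hres : ∀ m ψ, |a ((t m)⁻¹ • (vs m - v) - s) ψ - lam * b ((t m)⁻¹ • (vs m - v) - s) ψ| ≤
      (ε₀ + ρ m) * ‖ψ‖ := by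
    intro m ψ
    have e1 : a ((t m)⁻¹ • (vs m - v) - s) ψ - lam * b ((t m)⁻¹ • (vs m - v) - s) ψ =
        (lam * (k v ψ - k v v * b v ψ) - (a s ψ - lam * b s ψ)) +
        ((d m + lam * k v v) * bs m (vs m) ψ - lam * k v v * (bs m (vs m) ψ - b v ψ) +
        lam * ((t m)⁻¹ * (bs m (vs m) ψ - b (vs m) ψ) - k v ψ)) := by
      have e2 := hmain m ψ
      simp only [map_sub, map_smul, _root_.sub_apply, _root_.smul_apply, smul_eq_mul, heig]
      linear_combination e2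
    rw [e1]
    have e3 : |bs m (vs m) ψ| ≤ (‖b‖ + q m) * ‖vs m‖ * ‖ψ‖ := by
      have e4 : |b (vs m) ψ| ≤ ‖b‖ * ‖vs m‖ * ‖ψ‖ := b.le_opNorm₂ (vs m) ψ
      calc |bs m (vs m) ψ| = |(bs m (vs m) ψ - b (vs m) ψ) + b (vs m) ψ| := by ring_nf
        _ ≤ |bs m (vs m) ψ - b (vs m) ψ| + |b (vs m) ψ| := abs_add_le _ _
        _ ≤ q m * ‖vs m‖ * ‖ψ‖ + ‖b‖ * ‖vs m‖ * ‖ψ‖ := add_le_add (hq' m _ _) e4
        _ = _ := by ring
    have e5 : |bs m (vs m) ψ - b v ψ| ≤ (q m * ‖vs m‖ + ‖b‖ * ‖vs m - v‖) * ‖ψ‖ := by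
      have e4 : |b (vs m - v) ψ| ≤ ‖b‖ * ‖vs m - v‖ * ‖ψ‖ := b.le_opNorm₂ _ ψ
      have e6 : bs m (vs m) ψ - b v ψ = (bs m (vs m) ψ - b (vs m) ψ) + b (vs m - v) ψ := by
        rw [map_sub, _root_.sub_apply]; ring
      rw [e6]
      calc |(bs m (vs m) ψ - b (vs m) ψ) + b (vs m - v) ψ| ≤
          |bs m (vs m) ψ - b (vs m) ψ| + |b (vs m - v) ψ| := abs_add_le _ _
        _ ≤ q m * ‖vs m‖ * ‖ψ‖ + ‖b‖ * ‖vs m - v‖ * ‖ψ‖ := add_le_add (hq' m _ _) e4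
        _ = _ := by ring
    have e7 : |(t m)⁻¹ * (bs m (vs m) ψ - b (vs m) ψ) - k v ψ| ≤
        (η m * ‖vs m‖ + ‖k‖ * ‖vs m - v‖) * ‖ψ‖ := by
      have e4 : |k (vs m - v) ψ| ≤ ‖k‖ * ‖vs m - v‖ * ‖ψ‖ := k.le_opNorm₂ _ ψ
      have e6 : (t m)⁻¹ * (bs m (vs m) ψ - b (vs m) ψ) - k v ψ =
          ((t m)⁻¹ * (bs m (vs m) ψ - b (vs m) ψ) - k (vs m) ψ) + k (vs m - v) ψ := by
        rw [map_sub, _root_.sub_apply]; ring
      rw [e6]
      calc |((t m)⁻¹ * (bs m (vs m) ψ - b (vs m) ψ) - k (vs m) ψ) + k (vs m - v) ψ| ≤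
          |(t m)⁻¹ * (bs m (vs m) ψ - b (vs m) ψ) - k (vs m) ψ| + |k (vs m - v) ψ| :=
            abs_add_le _ _
        _ ≤ η m * ‖vs m‖ * ‖ψ‖ + ‖k‖ * ‖vs m - v‖ * ‖ψ‖ := add_le_add (hD m _ _) e4
        _ = _ := by ring
    have e8 := hs1 ψ
    calc |(lam * (k v ψ - k v v * b v ψ) - (a s ψ - lam * b s ψ)) +
        ((d m + lam * k v v) * bs m (vs m) ψ - lam * k v v * (bs m (vs m) ψ - b v ψ) +
        lam * ((t m)⁻¹ * (bs m (vs m) ψ - b (vs m) ψ) - k v ψ))| ≤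
        |lam * (k v ψ - k v v * b v ψ) - (a s ψ - lam * b s ψ)| +
        (|(d m + lam * k v v) * bs m (vs m) ψ| + |lam * k v v * (bs m (vs m) ψ - b v ψ)| +
        |lam * ((t m)⁻¹ * (bs m (vs m) ψ - b (vs m) ψ) - k v ψ)|) := by
          refine (abs_add_le _ _).trans (add_le_add le_rfl ?_)
          refine (abs_add_le _ _).trans (add_le_add ?_ le_rfl)
          exact abs_sub _ _
      _ ≤ ε₀ * ‖ψ‖ + (|d m + lam * k v v| * ((‖b‖ + q m) * ‖vs m‖ * ‖ψ‖) +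
        |lam * k v v| * ((q m * ‖vs m‖ + ‖b‖ * ‖vs m - v‖) * ‖ψ‖) +
        |lam| * ((η m * ‖vs m‖ + ‖k‖ * ‖vs m - v‖) * ‖ψ‖)) := by
          rw [abs_mul (d m + lam * k v v), abs_mul (lam * k v v),
            abs_mul lam ((t m)⁻¹ * (bs m (vs m) ψ - b (vs m) ψ) - k v ψ)]
          refine add_le_add e8 (add_le_add (add_le_add ?_ ?_) ?_)
          · exact mul_le_mul_of_nonneg_left e3 (abs_nonneg _)
          · exact mul_le_mul_of_nonneg_left e5 (abs_nonneg _)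
          · exact mul_le_mul_of_nonneg_left e7 (abs_nonneg _)
      _ = (ε₀ + ρ m) * ‖ψ‖ := by rw [hρ]; ring
  have hρn : ∀ m, 0 ≤ ρ m := fun m => by
    rw [hρ]
    have := hqn m
    have := hη0 m
    positivity
  have hfin : Tendsto (fun m => C * ((ε₀ + ρ m) + |(t m)⁻¹ * b (vs m - v) v - b s v|)) atTop
      (𝓝 (C * ((ε₀ + 0) + |-(k v v) / 2 - b s v|))) :=
    ((hρ0.const_add ε₀).add ((hnorm.sub_const (b s v)).abs)).const_mul C
  have hlt : C * ((ε₀ + 0) + |-(k v v) / 2 - b s v|) < C * (2 * ε₀) + ε₁ := by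
    have h1 : |-(k v v) / 2 - b s v| = |2 * b s v + k v v| / 2 := by
      rw [← abs_neg, show -(-(k v v) / 2 - b s v) = (2 * b s v + k v v) / 2 by ring, abs_div,
        abs_two]
    rw [h1, add_zero]
    have h2 : C * (ε₀ + |2 * b s v + k v v| / 2) ≤ C * (2 * ε₀) :=
      mul_le_mul_of_nonneg_left (by linarith) hC0.le
    linarith
  filter_upwards [hfin.eventually_lt_const hlt] with m h1
  have h2 := hC ((t m)⁻¹ • (vs m - v) - s) (ε₀ + ρ m) (add_nonneg hε₀ (hρn m)) (hres m)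
  have h3 : b ((t m)⁻¹ • (vs m - v) - s) v = (t m)⁻¹ * b (vs m - v) v - b s v := by
    rw [map_sub, map_smul, _root_.sub_apply, _root_.smul_apply, smul_eq_mul]
  rw [h3] at h2
  exact h2.trans h1.le

end Pool.Agent.H23.RM
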