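import Pool.Agent.H23.RM.Lev
import Pool.Graph.R_pool_sql_team_seeded_3997aac3.Q233.RSP.Top
import Pool.Graph.R_pool_sql_team_seeded_3997aac3.Q233.GLV.Alg

/-!
# Random metrics: the theorem for surfaces with isothermal charts
-/

set_option autoImplicit false
set_option linter.unusedSectionVars false

open Set Filter Topology MeasureTheory
open Pool.Agent.Y262.QE Pool.Agent.Y264.QR Pool.Agent.Y319.QR Q101.QG
open Pool.Agent.Q233 Pool.Agent.Q233.GLV

noncomputable section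

namespace Pool.Agent.H23.RM

variable {M : Type} [MetricSpace M] [CompactSpace M] [MeasurableSpace M] [BorelSpace M]
  {μ : Measure M} {D : Data M}

variable [Nonempty M] (μ D)

theorem rtop (hD : D.IsSurf μ)
    (hiso : ∀ i, ∀ z ∈ D.T i, ∃ c : ℝ, ∀ v, ‖D.A i z v‖ = c * ‖v‖)
    [MeasurableSpace C(M, ℝ)] [BorelSpace C(M, ℝ)]
    (P : Measure C(M, ℝ)) [IsProbabilityMeasure P] (S : Set C(M, ℝ))
    (hS : Dense (Submodule.span ℝ S : Set C(M, ℝ)))
    (hP : ∀ h ∈ S, ∀ t : ℝ, P.map (fun φ => φ + t • h) ≪ P) :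
    (∀ᵐ φ ∂P, ∀ (u : ℕ → M → ℝ) (lam : ℕ → ℝ),
      EigBasis (D.conf fun y => Real.exp (φ y)) (wm μ fun y => Real.exp (φ y)) u lam →
      ∀ (J : Finset ℕ) (c₀ : ℝ) (c : ℕ → ℝ), (∀ j ∈ J, 0 < lam j) →
        (∀ᵐ y ∂μ, c₀ + ∑ j ∈ J, c j * (u j y) ^ 2 = 0) → c₀ = 0 ∧ ∀ j ∈ J, c j = 0) ∧
    ∀ (n : ℕ) (N : Set (Fin n → ℝ)), volume N = 0 →
      ∀ᵐ φ ∂P, ∀ (u : ℕ → M → ℝ) (lam : ℕ → ℝ),
      EigBasis (D.conf fun y => Real.exp (φ y)) (wm μ fun y => Real.exp (φ y)) u lam →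
      ∀ p : Fin n → ℕ, Function.Injective p → (∀ l, 0 < lam (p l)) →
        (fun l => (wm μ fun y => Real.exp (φ y)).real univ * lam (p l)) ∉ N := by
  obtain ⟨hf, -⟩ := tFin M μ D hD
  haveI := hf
  haveI : CompleteSpace (HF D μ) := by
    unfold HF
    exact (Submodule.isClosed_topologicalClosure _).completeSpace_coe
  obtain ⟨i, a, hSf, hi, ha⟩ := tPackF M μ D hD inferInstance
  obtain ⟨b, hB, hF, hpos, hcmp, -⟩ := tFm M μ (HF D μ) i a hSf
  have hW := tWl M μ D hD inferInstance i a b hSf hi ha hB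
  have hbr := fun φ u lam hu => tBr M μ D hD i a b hSf hi ha hB hF φ u lam hu
  have hEv : ∀ φ (u : ℕ → M → ℝ) (lam : ℕ → ℝ),
      EigBasis (D.conf fun x => Real.exp (φ x)) (wm μ fun x => Real.exp (φ x)) u lam →
      ∀ j, lam j = Ev a (b φ) j := by
    intro φ u lam hu j
    obtain ⟨e', -, he'⟩ := hbr φ u lam hu
    exact (Pool.Agent.Y592.QE.mm _ a (b φ) (hF φ) e' lam he' j).symm
  obtain ⟨hnn, -, -, -, hdich⟩ := tLip M μ (HF D μ) a b hF hcmp
  have hEv0 : ∀ φ, Ev a (b φ) 0 = 0 := by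
    intro φ
    obtain ⟨e, E, hE⟩ := tSp (HF D μ) a (b φ) (hF φ)
    rw [Pool.Agent.Y592.QE.mm _ a (b φ) (hF φ) e E hE 0]
    exact lam_zero hD hSf hi ha hB hF (hpos φ) hE
  have hup : ∀ (φ : C(M, ℝ)) (j : ℕ), 0 < Ev a (b φ) j → j ≠ 0 ∧ ∀ ψ, 0 < Ev a (b ψ) j := by
    intro φ j hj
    refine ⟨fun h => ?_, ?_⟩
    · rw [h, hEv0] at hj
      exact lt_irrefl _ hj
    · rcases hdich j with h | h
      · rw [h φ] at hj
        exact absurd hj (lt_irrefl _)
      · exact h
  have hFam := fam_osc hD hiso hSf hi ha hB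
  have htot : ∀ (φ : C(M, ℝ)) (e : ℕ → HF D μ) (c : ℕ → ℝ) (J' : Finset ℕ), (∀ Ω ∈ Fam D,
      ∑ j ∈ J', c j * Ω (fun x => (i (e j) x) ^ 2) = 0) →
      ∀ h : C(M, ℝ), ∑ j ∈ J', c j * kap μ i h φ (e j) = 0 :=
    fun φ e c J' h0 h => fam_tot hD φ e c J' h0 h
  -- countably many directions
  obtain ⟨T, hTS, hTc, hTd⟩ := hS.exists_countable_dense_subset
  have hadm : ∀ h ∈ T, Adm P h := fun h hh => adm_span (S := S) (fun h hh t => hP h hh t) (hTS hh)
  have hmono : ∀ φ, Monotone fun j => Ev a (b φ) j := by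
    intro φ j l hjl
    obtain ⟨e, E, hE⟩ := tSp (HF D μ) a (b φ) (hF φ)
    have h1 := Pool.Agent.Y592.QE.mm _ a (b φ) (hF φ) e E hE
    simp only [h1]
    exact hE.mono hjl
  choose u₀ lam₀ hu₀ using fun φ => tEx M μ D hD inferInstance φ
  have hsim : ∀ᵐ φ ∂P, ∀ j, 0 < Ev a (b φ) j → Sim a b φ j := by
    filter_upwards [(RSP.top μ D hD P S hS hP).1] with φ h1 j hj
    have h2 := h1 (u₀ φ) (lam₀ φ) (hu₀ φ)
    have h3 : ∀ l, lam₀ φ l = Ev a (b φ) l := hEv φ (u₀ φ) (lam₀ φ) (hu₀ φ)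
    simp only [h3] at h2
    intro l hl heq
    rcases lt_or_gt_of_ne hl with h4 | h4
    · have h5 : 0 < Ev a (b φ) l := by rw [heq]; exact hj
      have h6 := (h2 l h5).trans_le (hmono φ (Nat.succ_le_of_lt h4))
      exact h6.ne heq
    · have h6 := (h2 j hj).trans_le (hmono φ (Nat.succ_le_of_lt h4))
      exact h6.ne heq.symm
  have key : ∀ᵐ φ ∂P, ∀ J : Finset ℕ, (∀ j ∈ J, j ≠ 0 ∧ ∀ φ, 0 < Ev a (b φ) j) →
      φ ∈ GoodS μ i a b (insert 0 J) := by
    rw [ae_all_iff]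
    intro J
    by_cases hJ : ∀ j ∈ J, j ≠ 0 ∧ ∀ φ, 0 < Ev a (b φ) j
    · filter_upwards [ae_good hSf hB hpos hTc hTd hadm hsim hFam htot J hJ] with x hx _
      exact hx
    · exact Eventually.of_forall fun x h => absurd h hJ
  constructor
  · filter_upwards [key] with φ hx u lam hu J c₀ c hlam hae
    obtain ⟨e', he1, he'⟩ := hbr φ u lam hu
    have hJ : ∀ j ∈ J, j ≠ 0 ∧ ∀ φ, 0 < Ev a (b φ) j := by
      intro j hj
      refine hup φ j ?_
      rw [← hEv φ u lam hu]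
      exact hlam j hj
    have h0J : (0 : ℕ) ∉ J := fun h => (hJ 0 h).1 rfl
    have hI := (hx J hJ).2 e' lam he'
    obtain ⟨c', hc'⟩ : ∃ c' : ℕ → ℝ, c' = fun j => if j = 0 then c₀ else c j := ⟨_, rfl⟩
    have hc0 : c' 0 = c₀ := by rw [hc']; simp
    have hcj : ∀ j ∈ J, c' j = c j := fun j hj => by rw [hc']; simp [(hJ j hj).1]
    have h1 := hI c' (by
      intro h
      rw [Finset.sum_insert h0J, hc0]
      have h2 : ∑ j ∈ J, c' j * pw μ i φ h e' j =
          ∑ j ∈ J, ∫ y, c j * (h y * (Real.exp (φ y) * (i (e' j) y) ^ 2)) ∂μ := by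
        refine Finset.sum_congr rfl fun j hj => ?_
        rw [hcj j hj, integral_const_mul]
        unfold pw
        rw [if_neg (hJ j hj).1]
        rfl
      have hint : ∀ j ∈ J, Integrable
          (fun y => c j * (h y * (Real.exp (φ y) * (i (e' j) y) ^ 2))) μ := by
        intro j _
        refine Integrable.const_mul ?_ _
        exact RSP.cint μ h (RSP.cint μ ⟨fun y => Real.exp (φ y),
          Real.continuous_exp.comp φ.continuous⟩ (Lp.memLp (i (e' j))).integrable_sq)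
      have h3 : c₀ * pw μ i φ h e' 0 = ∫ y, c₀ * (h y * Real.exp (φ y)) ∂μ := by
        rw [integral_const_mul]
        unfold pw
        rw [if_pos rfl]
      have hint0 : Integrable (fun y => c₀ * (h y * Real.exp (φ y))) μ :=
        Integrable.const_mul (RSP.cint μ h (RSP.exp_int (μ := μ) φ)) _
      rw [h2, h3, ← integral_finsetSum _ hint, ← integral_add hint0 (integrable_finsetSum _ hint)]
      refine integral_eq_zero_of_ae ?_
      have hall : ∀ᵐ y ∂μ, ∀ j, i (e' j) y = u j y := ae_all_iff.2 he1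
      filter_upwards [hae, hall] with y hy1 hy2
      have h4 : c₀ * (h y * Real.exp (φ y)) +
          ∑ j ∈ J, c j * (h y * (Real.exp (φ y) * (i (e' j) y) ^ 2)) =
          h y * Real.exp (φ y) * (c₀ + ∑ j ∈ J, c j * (u j y) ^ 2) := by
        rw [mul_add, Finset.mul_sum]
        congr 1
        · ring
        · refine Finset.sum_congr rfl fun j _ => ?_
          rw [hy2]
          ring
      simp only [Pi.zero_apply]
      rw [h4, hy1, mul_zero])
    refine ⟨?_, fun j hj => ?_⟩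
    · rw [← hc0]
      exact h1 0 (Finset.mem_insert_self _ _)
    · rw [← hcj j hj]
      exact h1 j (Finset.mem_insert_of_mem hj)
  · intro n N hN
    have key : ∀ᵐ φ ∂P, ∀ p : Fin n → ℕ, Function.Injective p →
        (∀ l, p l ≠ 0 ∧ ∀ φ, 0 < Ev a (b φ) (p l)) → Tu μ a b p φ ∉ N := by
      rw [ae_all_iff]
      intro p
      by_cases hp : Function.Injective p ∧ ∀ l, p l ≠ 0 ∧ ∀ φ, 0 < Ev a (b φ) (p l)
      · filter_upwards [ae_tuple hSf hB hpos hTc hTd hadm hp.1 hp.2 (by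
          filter_upwards [key] with φ hφ
          refine hφ _ fun j hj => ?_
          obtain ⟨l, -, rfl⟩ := Finset.mem_image.1 hj
          exact hp.2 l) hN] with x hx _ _
        exact hx
      · exact Eventually.of_forall fun x h h' => absurd ⟨h, h'⟩ hp
    filter_upwards [key] with φ hx u lam hu p hp hl
    have h1 := hx p hp fun l => hup φ (p l) (by
      rw [← hEv φ u lam hu]
      exact hl l)
    have h3 : (wm μ fun y => Real.exp (φ y)).real univ = ∫ y, Real.exp (φ y) ∂μ := by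
      have hm : Measurable fun y => Real.exp (φ y) :=
        (Real.continuous_exp.comp φ.continuous).measurable
      have h5 : (wm μ fun y => Real.exp (φ y)).real univ =
          ∫ y, (1 : ℝ) ∂(wm μ fun y => Real.exp (φ y)) := by simp
      rw [h5, integral_wm μ _ hm fun x => (Real.exp_pos _).le]
      simp
    have h4 : (fun l => (wm μ fun y => Real.exp (φ y)).real univ * lam (p l)) =
        Tu μ a b p φ := by
      funext l
      unfold Tu
      rw [h3, hEv φ u lam hu (p l)]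
    rw [h4]
    exact h1

end Pool.Agent.H23.RM
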